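import Mathlib

/-! # Queens graph colourings: basic definitions -/

set_option autoImplicit false

namespace Pool.Agent.T501Q

/-- two cells lie on a common row, column or diagonal -/
def Att (x y x' y' : ℕ) : Prop := x = x' ∨ y = y' ∨ x + y' = x' + y ∨ x + y = x' + y'

/-- `f` is a proper colouring of the `n × n` queens graph -/
def PC {α : Type*} (n : ℕ) (f : ℕ → ℕ → α) : Prop :=
  ∀ x y x' y', x < n → y < n → x' < n → y' < n → f x y = f x' y' → Att x y x' y' →
    x = x' ∧ y = y'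

/-- the `n × n` queens graph is `n`-colourable -/
def SQ (n : ℕ) : Prop := ∃ f : ℕ → ℕ → ℕ, (∀ x y, x < n → y < n → f x y < n) ∧ PC n f

/-- the `n × n` queens graph -/
def QG (n : ℕ) : SimpleGraph (Fin n × Fin n) :=
  SimpleGraph.fromRel (fun p q : Fin n × Fin n =>
        p.1 = q.1 ∨ p.2 = q.2 ∨
        ((p.1 : ℕ) : ℤ) - ((q.1 : ℕ) : ℤ) = ((p.2 : ℕ) : ℤ) - ((q.2 : ℕ) : ℤ) ∨
        ((p.1 : ℕ) : ℤ) - ((q.1 : ℕ) : ℤ) = ((q.2 : ℕ) : ℤ) - ((p.2 : ℕ) : ℤ))

theorem QG_adj (n : ℕ) (p q : Fin n × Fin n) :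
    (QG n).Adj p q ↔ p ≠ q ∧ Att p.1 p.2 q.1 q.2 := by
  unfold QG Att
  rw [SimpleGraph.fromRel_adj]
  constructor
  · rintro ⟨h, h2⟩
    refine ⟨h, ?_⟩
    rcases h2 with (h2 | h2 | h2 | h2) | (h2 | h2 | h2 | h2)
    · left; exact congrArg _ h2
    · right; left; exact congrArg _ h2
    · right; right; left; omega
    · right; right; right; omega
    · left; exact congrArg _ h2.symm
    · right; left; exact congrArg _ h2.symm
    · right; right; left; omega
    · right; right; right; omega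
  · rintro ⟨h, h2⟩
    refine ⟨h, Or.inl ?_⟩
    rcases h2 with h2 | h2 | h2 | h2
    · left; exact Fin.ext h2
    · right; left; exact Fin.ext h2
    · right; right; left; omega
    · right; right; right; omega

theorem SQ_iff (n : ℕ) : SQ n ↔ (QG n).Colorable n := by
  constructor
  · rintro ⟨f, hf, hp⟩
    refine ⟨SimpleGraph.Coloring.mk (fun p => (⟨f p.1 p.2, hf _ _ p.1.2 p.2.2⟩ : Fin n)) ?_⟩
    intro p q hpq heq
    rw [QG_adj] at hpq
    have h1 : f p.1 p.2 = f q.1 q.2 := congrArg Fin.val heq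
    obtain ⟨h2, h3⟩ := hp _ _ _ _ p.1.2 p.2.2 q.1.2 q.2.2 h1 hpq.2
    exact hpq.1 (Prod.ext (Fin.ext h2) (Fin.ext h3))
  · rintro ⟨C⟩
    refine ⟨fun x y => if h : x < n ∧ y < n then (C (⟨x, h.1⟩, ⟨y, h.2⟩) : Fin n) else 0, ?_, ?_⟩
    · intro x y hx hy
      simp only [hx, hy, and_self, dite_true]
      exact Fin.is_lt _
    · intro x y x' y' hx hy hx' hy' heq hatt
      simp only [hx, hy, hx', hy', and_self, dite_true] at heq
      by_contra hne
      have hadj : (QG n).Adj (⟨x, hx⟩, ⟨y, hy⟩) (⟨x', hx'⟩, ⟨y', hy'⟩) := by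
        rw [QG_adj]
        refine ⟨?_, hatt⟩
        intro h
        apply hne
        rw [Prod.ext_iff] at h
        exact ⟨congrArg Fin.val h.1, congrArg Fin.val h.2⟩
      exact C.valid hadj (Fin.ext heq)

/-- a proper colouring with colours in any finite set of `n` elements is enough -/
theorem SQ_of_card {α : Type*} (n : ℕ) (s : Finset α) (hs : s.card ≤ n) (f : ℕ → ℕ → α)
    (hf : ∀ x y, x < n → y < n → f x y ∈ s) (hp : PC n f) : SQ n := by
  classical
  let e := s.equivFin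
  refine ⟨fun x y => if h : f x y ∈ s then (e ⟨f x y, h⟩ : ℕ) else 0, ?_, ?_⟩
  · intro x y hx hy
    simp only [hf x y hx hy, dite_true]
    exact lt_of_lt_of_le (Fin.is_lt _) hs
  · intro x y x' y' hx hy hx' hy' heq hatt
    simp only [hf x y hx hy, hf x' y' hx' hy', dite_true] at heq
    have h1 := e.injective (Fin.ext heq)
    exact hp x y x' y' hx hy hx' hy' (congrArg Subtype.val h1) hatt

end Pool.Agent.T501Q
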