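import Mathlib

set_option autoImplicit false

/-! # The finite gadget for K = 16 (checker written by helper177). -/

namespace Pool.Agent.T501Q.G16

/-- two cells lie on a common row, column or diagonal -/
def Att (x y x' y' : ℕ) : Prop := x = x' ∨ y = y' ∨ x + y' = x' + y ∨ x + y = x' + y'

/-- `f` is a proper colouring of the `n × n` queens graph -/
def PC {α : Type*} (n : ℕ) (f : ℕ → ℕ → α) : Prop :=
  ∀ x y x' y', x < n → y < n → x' < n → y' < n → f x y = f x' y' → Att x y x' y' →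
    x = x' ∧ y = y'

/-- the `n × n` queens graph is `n`-colourable -/
def SQ (n : ℕ) : Prop := ∃ f : ℕ → ℕ → ℕ, (∀ x y, x < n → y < n → f x y < n) ∧ PC n f

/-- the row of the foreign cell of column `Y` -/
def R (K X0 X1 Y : ℕ) : ℕ := if Y = 0 then X0 else if Y = K - 1 then X1 else K

/-- the finite gadget: `Gp` a proper colouring of the `(K+1)`-board with last row `0, 1, ..., K`, `NR` a proper colouring of
the `K`-board with `NR X0 0 = 0`, `NR X1 (K-1) = K-1`, colour `0` missing on the antidiagonal `X + Y = K`, colour `K-1`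
missing on the diagonal `X = Y + 1`; `D0, D1, A0, A1` proper colourings of the `K`-board whose colour class `c` misses one
given diagonal. -/
structure Gadget (K X0 X1 : ℕ) (Gp NR D0 D1 A0 A1 : ℕ → ℕ → ℕ) : Prop where
  hK : 3 ≤ K
  hX0 : X0 < K
  hX1 : X1 < K
  gp : PC (K + 1) Gp
  gp_le : ∀ X Y, X ≤ K → Y ≤ K → Gp X Y ≤ K
  gp_last : ∀ Y, Y ≤ K → Gp K Y = Y
  nr : PC K NR
  nr_lt : ∀ X Y, X < K → Y < K → NR X Y < K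
  nr0 : NR X0 0 = 0
  nr1 : NR X1 (K - 1) = K - 1
  nrA : ∀ X Y, X < K → Y < K → NR X Y = 0 → X + Y ≠ K
  nrD : ∀ X Y, X < K → Y < K → NR X Y = K - 1 → X ≠ Y + 1
  d0 : PC K D0
  d0_lt : ∀ X Y, X < K → Y < K → D0 X Y < K
  d0_av : ∀ X Y, X < K → Y < K → X + D0 X Y ≠ R K X0 X1 (D0 X Y) + Y
  d1 : PC K D1
  d1_lt : ∀ X Y, X < K → Y < K → D1 X Y < K
  d1_av : ∀ X Y, X < K → Y < K → X + D1 X Y + 1 ≠ R K X0 X1 (D1 X Y) + Y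
  a0 : PC K A0
  a0_lt : ∀ X Y, X < K → Y < K → A0 X Y < K
  a0_av : ∀ X Y, X < K → Y < K → X + Y ≠ R K X0 X1 (A0 X Y) + A0 X Y
  a1 : PC K A1
  a1_lt : ∀ X Y, X < K → Y < K → A1 X Y < K
  a1_av : ∀ X Y, X < K → Y < K → X + Y + 1 ≠ R K X0 X1 (A1 X Y) + A1 X Y

/-- table -/
def tGp : List (List ℕ) :=
  [[14, 15, 16, 0, 1, 2, 3, 4, 5, 6, 7, 8, 9, 10, 11, 12, 13],
   [11, 12, 13, 14, 15, 16, 0, 1, 2, 3, 4, 5, 6, 7, 8, 9, 10],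
   [8, 9, 10, 11, 12, 13, 14, 15, 16, 0, 1, 2, 3, 4, 5, 6, 7],
   [5, 6, 7, 8, 9, 10, 11, 12, 13, 14, 15, 16, 0, 1, 2, 3, 4],
   [2, 3, 4, 5, 6, 7, 8, 9, 10, 11, 12, 13, 14, 15, 16, 0, 1],
   [16, 0, 1, 2, 3, 4, 5, 6, 7, 8, 9, 10, 11, 12, 13, 14, 15],
   [13, 14, 15, 16, 0, 1, 2, 3, 4, 5, 6, 7, 8, 9, 10, 11, 12],
   [10, 11, 12, 13, 14, 15, 16, 0, 1, 2, 3, 4, 5, 6, 7, 8, 9],
   [7, 8, 9, 10, 11, 12, 13, 14, 15, 16, 0, 1, 2, 3, 4, 5, 6],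
   [4, 5, 6, 7, 8, 9, 10, 11, 12, 13, 14, 15, 16, 0, 1, 2, 3],
   [1, 2, 3, 4, 5, 6, 7, 8, 9, 10, 11, 12, 13, 14, 15, 16, 0],
   [15, 16, 0, 1, 2, 3, 4, 5, 6, 7, 8, 9, 10, 11, 12, 13, 14],
   [12, 13, 14, 15, 16, 0, 1, 2, 3, 4, 5, 6, 7, 8, 9, 10, 11],
   [9, 10, 11, 12, 13, 14, 15, 16, 0, 1, 2, 3, 4, 5, 6, 7, 8],
   [6, 7, 8, 9, 10, 11, 12, 13, 14, 15, 16, 0, 1, 2, 3, 4, 5],
   [3, 4, 5, 6, 7, 8, 9, 10, 11, 12, 13, 14, 15, 16, 0, 1, 2],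
   [0, 1, 2, 3, 4, 5, 6, 7, 8, 9, 10, 11, 12, 13, 14, 15, 16]]

/-- table -/
def tNR : List (List ℕ) :=
  [[2, 13, 10, 3, 6, 12, 8, 0, 15, 7, 11, 5, 4, 9, 14, 1],
   [9, 5, 7, 1, 11, 15, 3, 14, 13, 4, 0, 12, 2, 8, 6, 10],
   [6, 2, 15, 9, 14, 4, 12, 8, 7, 11, 3, 13, 10, 0, 1, 5],
   [11, 14, 3, 6, 2, 7, 0, 9, 10, 15, 8, 1, 5, 4, 13, 12],
   [12, 8, 4, 14, 9, 5, 15, 2, 1, 0, 6, 10, 13, 3, 7, 11],
   [0, 7, 12, 13, 1, 10, 4, 6, 5, 3, 9, 2, 14, 11, 8, 15],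
   [5, 1, 0, 10, 8, 13, 11, 3, 4, 12, 14, 7, 9, 15, 2, 6],
   [10, 6, 11, 2, 3, 0, 7, 13, 14, 8, 15, 4, 1, 12, 5, 9],
   [8, 4, 13, 15, 5, 1, 9, 11, 12, 10, 2, 6, 0, 14, 3, 7],
   [3, 0, 1, 8, 10, 11, 13, 5, 6, 14, 12, 9, 7, 2, 15, 4],
   [1, 9, 14, 11, 0, 8, 6, 4, 3, 5, 7, 15, 12, 13, 10, 2],
   [14, 10, 6, 12, 7, 3, 2, 15, 0, 1, 4, 8, 11, 5, 9, 13],
   [13, 12, 5, 4, 15, 9, 1, 7, 8, 2, 10, 0, 3, 6, 11, 14],
   [4, 15, 2, 7, 12, 6, 14, 10, 9, 13, 5, 11, 8, 1, 0, 3],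
   [7, 3, 9, 0, 13, 2, 5, 12, 11, 6, 1, 14, 15, 10, 4, 8],
   [15, 11, 8, 5, 4, 14, 10, 1, 2, 9, 13, 3, 6, 7, 12, 0]]

/-- table -/
def tD0 : List (List ℕ) :=
  [[6, 3, 12, 11, 9, 14, 5, 15, 10, 8, 4, 7, 2, 13, 0, 1],
   [13, 7, 8, 1, 4, 10, 11, 0, 3, 2, 15, 14, 6, 5, 9, 12],
   [9, 6, 10, 13, 0, 2, 14, 5, 8, 4, 11, 3, 12, 15, 1, 7],
   [4, 0, 11, 9, 6, 8, 15, 13, 12, 10, 5, 1, 7, 2, 3, 14],
   [14, 5, 2, 0, 13, 7, 10, 6, 1, 15, 9, 12, 3, 11, 8, 4],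
   [15, 8, 14, 3, 1, 12, 2, 9, 7, 11, 13, 6, 0, 4, 5, 10],
   [7, 1, 15, 12, 5, 3, 4, 11, 2, 14, 0, 8, 13, 10, 6, 9],
   [12, 9, 4, 6, 11, 15, 8, 3, 0, 5, 10, 2, 1, 14, 7, 13],
   [5, 2, 3, 10, 7, 1, 13, 4, 14, 12, 6, 9, 15, 0, 11, 8],
   [11, 15, 1, 5, 12, 4, 3, 7, 9, 0, 14, 13, 8, 6, 10, 2],
   [1, 13, 0, 4, 15, 5, 9, 2, 11, 7, 8, 10, 14, 3, 12, 6],
   [0, 12, 9, 14, 8, 11, 6, 10, 15, 1, 2, 5, 4, 7, 13, 3],
   [3, 14, 7, 2, 10, 13, 1, 8, 5, 6, 12, 15, 11, 9, 4, 0],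
   [2, 10, 6, 8, 14, 9, 0, 12, 13, 3, 7, 4, 5, 1, 15, 11],
   [8, 11, 13, 15, 3, 6, 7, 14, 4, 9, 1, 0, 10, 12, 2, 5],
   [10, 4, 5, 7, 2, 0, 12, 1, 6, 13, 3, 11, 9, 8, 14, 15]]

/-- table -/
def tD1 : List (List ℕ) :=
  [[5, 4, 11, 10, 2, 13, 3, 6, 14, 9, 7, 8, 1, 12, 0, 15],
   [12, 8, 9, 15, 7, 14, 10, 0, 4, 1, 6, 13, 5, 3, 2, 11],
   [2, 5, 14, 12, 0, 1, 13, 3, 9, 7, 10, 4, 11, 6, 15, 8],
   [7, 0, 10, 2, 5, 9, 6, 12, 11, 14, 3, 15, 8, 1, 4, 13],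
   [13, 3, 1, 0, 12, 8, 14, 5, 15, 6, 2, 11, 4, 10, 9, 7],
   [6, 9, 13, 4, 15, 11, 1, 2, 8, 10, 12, 5, 0, 7, 3, 14],
   [8, 15, 6, 11, 3, 4, 7, 10, 1, 13, 0, 9, 12, 14, 5, 2],
   [11, 2, 7, 5, 10, 6, 9, 4, 0, 3, 14, 1, 15, 13, 8, 12],
   [3, 1, 4, 14, 8, 15, 12, 7, 13, 11, 5, 2, 6, 0, 10, 9],
   [10, 6, 15, 3, 11, 7, 4, 8, 2, 0, 13, 12, 9, 5, 14, 1],
   [15, 12, 0, 7, 6, 3, 2, 1, 10, 8, 9, 14, 13, 4, 11, 5],
   [0, 11, 2, 13, 9, 10, 5, 14, 6, 15, 1, 3, 7, 8, 12, 4],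
   [4, 13, 8, 1, 14, 12, 15, 9, 3, 5, 11, 6, 10, 2, 7, 0],
   [1, 14, 5, 9, 13, 2, 0, 11, 12, 4, 8, 7, 3, 15, 6, 10],
   [9, 10, 12, 6, 4, 5, 8, 13, 7, 2, 15, 0, 14, 11, 1, 3],
   [14, 7, 3, 8, 1, 0, 11, 15, 5, 12, 4, 10, 2, 9, 13, 6]]

/-- table -/
def tA0 : List (List ℕ) :=
  [[14, 5, 2, 15, 0, 7, 11, 10, 8, 9, 1, 13, 4, 3, 6, 12],
   [3, 13, 9, 12, 1, 8, 15, 6, 5, 4, 10, 7, 14, 11, 0, 2],
   [0, 14, 8, 3, 6, 4, 7, 11, 9, 1, 15, 5, 2, 10, 12, 13],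
   [1, 6, 15, 0, 14, 9, 10, 3, 2, 8, 11, 12, 13, 4, 5, 7],
   [7, 11, 4, 6, 3, 13, 8, 14, 12, 10, 0, 2, 5, 15, 9, 1],
   [10, 9, 7, 5, 12, 2, 4, 0, 13, 15, 3, 14, 6, 1, 11, 8],
   [13, 12, 10, 2, 11, 5, 1, 15, 4, 7, 6, 9, 3, 8, 14, 0],
   [2, 0, 1, 14, 15, 10, 9, 5, 6, 11, 8, 4, 12, 7, 13, 3],
   [11, 4, 5, 8, 13, 12, 3, 1, 7, 2, 14, 0, 10, 6, 15, 9],
   [15, 10, 12, 11, 2, 1, 5, 13, 0, 6, 7, 3, 9, 14, 8, 4],
   [12, 3, 6, 1, 10, 11, 0, 4, 15, 13, 9, 8, 7, 5, 2, 14],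
   [6, 2, 0, 7, 9, 15, 14, 8, 10, 12, 4, 11, 1, 13, 3, 5],
   [5, 7, 13, 4, 8, 3, 12, 9, 11, 14, 2, 10, 15, 0, 1, 6],
   [4, 8, 14, 9, 7, 0, 6, 2, 3, 5, 13, 1, 11, 12, 10, 15],
   [9, 15, 3, 10, 5, 14, 13, 7, 1, 0, 12, 6, 8, 2, 4, 11],
   [8, 1, 11, 13, 4, 6, 2, 12, 14, 3, 5, 15, 0, 9, 7, 10]]

/-- table -/
def tA1 : List (List ℕ) :=
  [[14, 5, 3, 15, 9, 8, 6, 1, 7, 0, 2, 13, 10, 4, 11, 12],
   [4, 13, 0, 12, 2, 7, 15, 11, 5, 10, 1, 8, 14, 6, 9, 3],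
   [9, 14, 7, 4, 11, 10, 8, 6, 0, 2, 15, 5, 3, 1, 12, 13],
   [2, 11, 15, 9, 14, 0, 1, 4, 3, 7, 6, 12, 13, 10, 5, 8],
   [8, 6, 10, 11, 4, 13, 7, 14, 12, 1, 9, 3, 5, 15, 0, 2],
   [1, 0, 8, 5, 12, 3, 10, 9, 13, 15, 4, 14, 11, 2, 6, 7],
   [13, 12, 1, 3, 6, 5, 2, 15, 10, 8, 11, 0, 4, 7, 14, 9],
   [3, 9, 2, 14, 15, 1, 0, 5, 11, 6, 7, 10, 12, 8, 13, 4],
   [6, 10, 5, 7, 13, 12, 4, 2, 8, 3, 14, 9, 1, 11, 15, 0],
   [15, 1, 12, 6, 3, 2, 5, 13, 9, 11, 8, 4, 0, 14, 7, 10],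
   [12, 4, 11, 2, 1, 6, 9, 10, 15, 13, 0, 7, 8, 5, 3, 14],
   [11, 3, 9, 8, 0, 15, 14, 7, 1, 12, 10, 6, 2, 13, 4, 5],
   [5, 8, 13, 10, 7, 4, 12, 0, 6, 14, 3, 1, 15, 9, 2, 11],
   [10, 7, 14, 0, 8, 9, 11, 3, 4, 5, 13, 2, 6, 12, 1, 15],
   [0, 15, 4, 1, 5, 14, 13, 8, 2, 9, 12, 11, 7, 3, 10, 6],
   [7, 2, 6, 13, 10, 11, 3, 12, 14, 4, 5, 15, 9, 0, 8, 1]]

/-- entry of a table -/
def ent (t : List (List ℕ)) (X Y : ℕ) : ℕ := (t.getD X []).getD Y 0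

namespace J_gadget

/-- checker for proper colourings -/
def chk (n : ℕ) (f : ℕ → ℕ → ℕ) : Bool :=
  (List.range n).all fun x => (List.range n).all fun y => (List.range n).all fun k =>
    (Nat.ble n (y + (k + 1)) || !(Nat.beq (f x y) (f x (y + (k + 1))))) &&
    (Nat.ble n (x + (k + 1)) ||
      (!(Nat.beq (f x y) (f (x + (k + 1)) y)) &&
      (Nat.ble n (y + (k + 1)) || !(Nat.beq (f x y) (f (x + (k + 1)) (y + (k + 1))))) &&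
      (Nat.ble y k || !(Nat.beq (f x y) (f (x + (k + 1)) (y - (k + 1)))))))

theorem beq_false {a b : ℕ} (h : (!(Nat.beq a b)) = true) : a ≠ b := by
  intro hab
  subst hab
  simp at h

theorem key {n : ℕ} {f : ℕ → ℕ → ℕ} (h : chk n f = true) {x y k : ℕ} (hx : x < n) (hy : y < n)
    (hk : k < n) :
    (y + (k + 1) < n → f x y ≠ f x (y + (k + 1))) ∧
    (x + (k + 1) < n → f x y ≠ f (x + (k + 1)) y) ∧
    (x + (k + 1) < n → y + (k + 1) < n → f x y ≠ f (x + (k + 1)) (y + (k + 1))) ∧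
    (x + (k + 1) < n → k < y → f x y ≠ f (x + (k + 1)) (y - (k + 1))) := by
  unfold chk at h
  rw [List.all_eq_true] at h
  have h1 := h x (List.mem_range.2 hx)
  rw [List.all_eq_true] at h1
  have h2 := h1 y (List.mem_range.2 hy)
  rw [List.all_eq_true] at h2
  have h3 := h2 k (List.mem_range.2 hk)
  simp only [Bool.and_eq_true, Bool.or_eq_true, Nat.ble_eq] at h3
  obtain ⟨h4, h5⟩ := h3
  refine ⟨fun hh => ?_, fun hh => ?_, fun hh hh' => ?_, fun hh hh' => ?_⟩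
  · rcases h4 with h4 | h4
    · omega
    · exact beq_false h4
  · rcases h5 with h5 | h5
    · omega
    · exact beq_false h5.1.1
  · rcases h5 with h5 | h5
    · omega
    · rcases h5.1.2 with h6 | h6
      · omega
      · exact beq_false h6
  · rcases h5 with h5 | h5
    · omega
    · rcases h5.2 with h6 | h6
      · omega
      · exact beq_false h6

theorem chk_sound {n : ℕ} {f : ℕ → ℕ → ℕ} (h : chk n f = true) : PC n f := by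
  have main : ∀ x y x' y', x ≤ x' → x < n → y < n → x' < n → y' < n → f x y = f x' y' →
      Att x y x' y' → x = x' ∧ y = y' := by
    intro x y x' y' hxx hx hy hx' hy' he ha
    rcases Nat.lt_or_ge x x' with hlt | hge
    · exfalso
      obtain ⟨k, rfl⟩ : ∃ k, x' = x + (k + 1) := ⟨x' - x - 1, by omega⟩
      obtain ⟨-, h2, h3, h4⟩ := key h hx hy (show k < n by omega)
      rcases ha with ha | ha | ha | ha
      · omega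
      · subst ha
        exact h2 hx' he
      · have e1 : y' = y + (k + 1) := by omega
        subst e1
        exact h3 hx' hy' he
      · have e1 : y' = y - (k + 1) := by omega
        have e2 : k < y := by omega
        subst e1
        exact h4 hx' e2 he
    · have e0 : x' = x := by omega
      subst e0
      refine ⟨rfl, ?_⟩
      rcases Nat.lt_trichotomy y y' with hl | hl | hl
      · exfalso
        obtain ⟨k, rfl⟩ : ∃ k, y' = y + (k + 1) := ⟨y' - y - 1, by omega⟩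
        exact (key h hx hy (show k < n by omega)).1 hy' he
      · exact hl
      · exfalso
        obtain ⟨k, rfl⟩ : ∃ k, y = y' + (k + 1) := ⟨y - y' - 1, by omega⟩
        exact (key h hx hy' (show k < n by omega)).1 hy he.symm
  intro x y x' y' hx hy hx' hy' he ha
  rcases Nat.le_total x x' with hle | hle
  · exact main x y x' y' hle hx hy hx' hy' he ha
  · have h1 := main x' y' x y hle hx' hy' hx hy he.symm (by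
      unfold Att at ha ⊢
      omega)
    exact ⟨h1.1.symm, h1.2.symm⟩

end J_gadget

open J_gadget in
theorem gadget : Gadget 16 5 5 (ent tGp) (ent tNR) (ent tD0) (ent tD1) (ent tA0) (ent tA1) where
  hK := by decide
  hX0 := by decide
  hX1 := by decide
  gp := chk_sound (by decide +kernel)
  gp_le := fun X Y hX hY => (show ∀ X < 17, ∀ Y < 17, ent tGp X Y ≤ 16 by decide +kernel) X
    (Nat.lt_succ_of_le hX) Y (Nat.lt_succ_of_le hY)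
  gp_last := fun Y hY => (show ∀ Y < 17, ent tGp 16 Y = Y by decide +kernel) Y
    (Nat.lt_succ_of_le hY)
  nr := chk_sound (by decide +kernel)
  nr_lt := fun X Y hX hY => (show ∀ X < 16, ∀ Y < 16, ent tNR X Y < 16 by decide +kernel) X hX Y hY
  nr0 := by decide +kernel
  nr1 := by decide +kernel
  nrA := fun X Y hX hY => (show ∀ X < 16, ∀ Y < 16, ent tNR X Y = 0 → X + Y ≠ 16 by
    decide +kernel) X hX Y hY
  nrD := fun X Y hX hY => (show ∀ X < 16, ∀ Y < 16, ent tNR X Y = 16 - 1 → X ≠ Y + 1 by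
    decide +kernel) X hX Y hY
  d0 := chk_sound (by decide +kernel)
  d0_lt := fun X Y hX hY => (show ∀ X < 16, ∀ Y < 16, ent tD0 X Y < 16 by decide +kernel) X hX Y hY
  d0_av := fun X Y hX hY => (show ∀ X < 16, ∀ Y < 16,
    X + ent tD0 X Y ≠ R 16 5 5 (ent tD0 X Y) + Y by decide +kernel) X hX Y hY
  d1 := chk_sound (by decide +kernel)
  d1_lt := fun X Y hX hY => (show ∀ X < 16, ∀ Y < 16, ent tD1 X Y < 16 by decide +kernel) X hX Y hY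
  d1_av := fun X Y hX hY => (show ∀ X < 16, ∀ Y < 16,
    X + ent tD1 X Y + 1 ≠ R 16 5 5 (ent tD1 X Y) + Y by decide +kernel) X hX Y hY
  a0 := chk_sound (by decide +kernel)
  a0_lt := fun X Y hX hY => (show ∀ X < 16, ∀ Y < 16, ent tA0 X Y < 16 by decide +kernel) X hX Y hY
  a0_av := fun X Y hX hY => (show ∀ X < 16, ∀ Y < 16,
    X + Y ≠ R 16 5 5 (ent tA0 X Y) + ent tA0 X Y by decide +kernel) X hX Y hY
  a1 := chk_sound (by decide +kernel)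
  a1_lt := fun X Y hX hY => (show ∀ X < 16, ∀ Y < 16, ent tA1 X Y < 16 by decide +kernel) X hX Y hY
  a1_av := fun X Y hX hY => (show ∀ X < 16, ∀ Y < 16,
    X + Y + 1 ≠ R 16 5 5 (ent tA1 X Y) + ent tA1 X Y by decide +kernel) X hX Y hY

end Pool.Agent.T501Q.G16
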