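import Mathlib

set_option autoImplicit false

/-! # The product theorem for n-colourable queens graphs (job of helper501, proof written by helper227). -/

namespace Pool.Agent.T501Q.J1

/-- two cells lie on a common row, column or diagonal -/
def Att (x y x' y' : ℕ) : Prop := x = x' ∨ y = y' ∨ x + y' = x' + y ∨ x + y = x' + y'

/-- `f` is a proper colouring of the `n × n` queens graph -/
def PC {α : Type*} (n : ℕ) (f : ℕ → ℕ → α) : Prop :=
  ∀ x y x' y', x < n → y < n → x' < n → y' < n → f x y = f x' y' → Att x y x' y' →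
    x = x' ∧ y = y'

/-- the `n × n` queens graph is `n`-colourable -/
def SQ (n : ℕ) : Prop := ∃ f : ℕ → ℕ → ℕ, (∀ x y, x < n → y < n → f x y < n) ∧ PC n f

/- Idea: with x = u * X + a, y = u * Y + b (a, b < u, X, Y < k) use the colour
`u * (f X Y) + ((b + (u - (2 * a) % u)) % u)`, that is (f X Y, b - 2 a mod u). A common diagonal gives
u * (X - Y) + (a - b) = u * (X' - Y') + (a' - b'), hence a - b = a' - b' mod u; with b - 2a = b' - 2a' mod u this gives
a = a', b = b' (1, 2, 3 are units mod u) and then X - Y = X' - Y'. Same for the other diagonals. -/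


namespace J_SQmul

theorem coprime_parts {u : ℕ} (hu : Nat.Coprime u 6) : 0 < u ∧ Nat.Coprime u 2 ∧ Nat.Coprime u 3 := by
  refine ⟨?_, ?_, ?_⟩
  · rcases Nat.eq_zero_or_pos u with h | h
    · subst h
      norm_num at hu
    · exact h
  · exact Nat.Coprime.coprime_dvd_right (by norm_num) hu
  · exact Nat.Coprime.coprime_dvd_right (by norm_num) hu

theorem dvd_of_mod {u a b a' b' : ℕ} (hu : 0 < u)
    (h : (b + (u - (2 * a) % u)) % u = (b' + (u - (2 * a') % u)) % u) :
    (u : ℤ) ∣ ((b' : ℤ) - 2 * a') - (b - 2 * a) := by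
  have h1 : (b + (u - (2 * a) % u)) ≡ (b' + (u - (2 * a') % u)) [MOD u] := h
  have h2 := (Nat.modEq_iff_dvd).1 h1
  have h3 : (2 * a) % u < u := Nat.mod_lt _ hu
  have h4 : (2 * a') % u < u := Nat.mod_lt _ hu
  have h5 := Nat.div_add_mod (2 * a) u
  have h6 := Nat.div_add_mod (2 * a') u
  obtain ⟨c, hc⟩ := h2
  push_cast [Nat.cast_sub h3.le, Nat.cast_sub h4.le] at hc
  have h5' : (u : ℤ) * ((2 * a / u : ℕ) : ℤ) + ((2 * a % u : ℕ) : ℤ) = 2 * a := by exact_mod_cast h5
  have h6' : (u : ℤ) * ((2 * a' / u : ℕ) : ℤ) + ((2 * a' % u : ℕ) : ℤ) = 2 * a' := by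
    exact_mod_cast h6
  refine ⟨c - ((2 * a' / u : ℕ) : ℤ) + ((2 * a / u : ℕ) : ℤ), ?_⟩
  push_cast at h5' h6' hc ⊢
  linear_combination hc + h6' - h5'

theorem eq_of_dvd {u a a' : ℕ} (ha : a < u) (ha' : a' < u) (h : (u : ℤ) ∣ (a' : ℤ) - a) :
    a = a' := by
  have h1 : a ≡ a' [MOD u] := (Nat.modEq_iff_dvd).2 h
  exact Nat.ModEq.eq_of_lt_of_lt h1 ha ha'

theorem eq_of_dvd_mul {u a a' c : ℕ} (hc : Nat.Coprime u c) (ha : a < u) (ha' : a' < u)
    (h : (u : ℤ) ∣ c * ((a' : ℤ) - a)) : a = a' := by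
  refine eq_of_dvd ha ha' ?_
  have h1 : IsCoprime (u : ℤ) (c : ℤ) := Nat.isCoprime_iff_coprime.2 hc
  exact h1.dvd_of_dvd_mul_left h

theorem key {u a b a' b' : ℕ} (hu : Nat.Coprime u 6) (ha : a < u) (ha' : a' < u) (hb : b < u)
    (hb' : b' < u)
    (h : (b + (u - (2 * a) % u)) % u = (b' + (u - (2 * a') % u)) % u)
    (X Y X' Y' : ℕ) (hatt : Att (u * X + a) (u * Y + b) (u * X' + a') (u * Y' + b')) :
    a = a' ∧ b = b' := by
  obtain ⟨hu0, hu2, hu3⟩ := coprime_parts hu
  have hd := dvd_of_mod hu0 h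
  have hfin : a = a' → a = a' ∧ b = b' := by
    intro haa
    refine ⟨haa, ?_⟩
    subst haa
    refine eq_of_dvd hb hb' ?_
    have h1 : (b' : ℤ) - b = ((b' : ℤ) - 2 * a) - (b - 2 * a) := by ring
    rw [h1]
    exact hd
  rcases hatt with h1 | h1 | h1 | h1
  · apply hfin
    refine eq_of_dvd ha ha' ⟨X - X', ?_⟩
    have h2 : ((u * X + a : ℕ) : ℤ) = ((u * X' + a' : ℕ) : ℤ) := by rw [h1]
    push_cast at h2
    linear_combination -h2
  · apply hfin
    have h2 : ((u * Y + b : ℕ) : ℤ) = ((u * Y' + b' : ℕ) : ℤ) := by rw [h1]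
    push_cast at h2
    refine eq_of_dvd_mul hu2 ha ha' ?_
    obtain ⟨c, hc⟩ := hd
    refine ⟨Y - Y' - c, ?_⟩
    push_cast
    linear_combination -h2 - hc
  · apply hfin
    have h2 : ((u * X + a + (u * Y' + b') : ℕ) : ℤ) = ((u * X' + a' + (u * Y + b) : ℕ) : ℤ) := by
      rw [h1]
    push_cast at h2
    obtain ⟨c, hc⟩ := hd
    refine eq_of_dvd ha ha' ⟨X' + Y - X - Y' - c, ?_⟩
    linear_combination -hc + h2
  · apply hfin
    have h2 : ((u * X + a + (u * Y + b) : ℕ) : ℤ) = ((u * X' + a' + (u * Y' + b') : ℕ) : ℤ) := by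
      rw [h1]
    push_cast at h2
    obtain ⟨c, hc⟩ := hd
    refine eq_of_dvd_mul hu3 ha ha' ⟨X + Y - X' - Y' - c, ?_⟩
    push_cast
    linear_combination -h2 - hc

theorem att_div {u a b X Y X' Y' : ℕ} (hu : 0 < u)
    (h : Att (u * X + a) (u * Y + b) (u * X' + a) (u * Y' + b)) : Att X Y X' Y' := by
  rcases h with h1 | h1 | h1 | h1
  · left
    have : u * X = u * X' := by omega
    exact Nat.eq_of_mul_eq_mul_left hu this
  · right; left
    have : u * Y = u * Y' := by omega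
    exact Nat.eq_of_mul_eq_mul_left hu this
  · right; right; left
    have : u * (X + Y') = u * (X' + Y) := by
      rw [mul_add, mul_add]
      omega
    exact Nat.eq_of_mul_eq_mul_left hu this
  · right; right; right
    have : u * (X + Y) = u * (X' + Y') := by
      rw [mul_add, mul_add]
      omega
    exact Nat.eq_of_mul_eq_mul_left hu this

end J_SQmul

theorem SQ_mul (k u : ℕ) (hk : SQ k) (hu : Nat.Coprime u 6) : SQ (k * u) := by
  obtain ⟨hu0, -, -⟩ := J_SQmul.coprime_parts hu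
  obtain ⟨f, hf, hpc⟩ := hk
  refine ⟨fun x y => u * f (x / u) (y / u) + ((y % u + (u - (2 * (x % u)) % u)) % u), ?_, ?_⟩
  · intro x y hx hy
    have h1 : x / u < k := Nat.div_lt_of_lt_mul (by rwa [mul_comm] at hx)
    have h2 : y / u < k := Nat.div_lt_of_lt_mul (by rwa [mul_comm] at hy)
    have h3 := hf _ _ h1 h2
    have h4 : (y % u + (u - (2 * (x % u)) % u)) % u < u := Nat.mod_lt _ hu0
    show u * f (x / u) (y / u) + ((y % u + (u - (2 * (x % u)) % u)) % u) < k * u
    calc u * f (x / u) (y / u) + ((y % u + (u - (2 * (x % u)) % u)) % u)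
        < u * f (x / u) (y / u) + u := by omega
      _ = u * (f (x / u) (y / u) + 1) := by ring
      _ ≤ u * k := Nat.mul_le_mul_left u h3
      _ = k * u := mul_comm _ _
  · intro x y x' y' hx hy hx' hy' hfe hatt
    have h1 : x / u < k := Nat.div_lt_of_lt_mul (by rwa [mul_comm] at hx)
    have h2 : y / u < k := Nat.div_lt_of_lt_mul (by rwa [mul_comm] at hy)
    have h3 : x' / u < k := Nat.div_lt_of_lt_mul (by rwa [mul_comm] at hx')
    have h4 : y' / u < k := Nat.div_lt_of_lt_mul (by rwa [mul_comm] at hy')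
    have hfe' : u * f (x / u) (y / u) + ((y % u + (u - (2 * (x % u)) % u)) % u) =
      u * f (x' / u) (y' / u) + ((y' % u + (u - (2 * (x' % u)) % u)) % u) := hfe
    have h5 : (y % u + (u - (2 * (x % u)) % u)) % u < u := Nat.mod_lt _ hu0
    have h6 : (y' % u + (u - (2 * (x' % u)) % u)) % u < u := Nat.mod_lt _ hu0
    have h7 : (y % u + (u - (2 * (x % u)) % u)) % u = (y' % u + (u - (2 * (x' % u)) % u)) % u := by
      have h8 := congrArg (fun t => t % u) hfe'
      simp only [Nat.mul_add_mod_self_left, Nat.mod_mod] at h8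
      exact h8
    have h9 : f (x / u) (y / u) = f (x' / u) (y' / u) := by
      rw [h7] at hfe'
      have h10 := Nat.add_right_cancel hfe'
      exact Nat.eq_of_mul_eq_mul_left hu0 h10
    have ex := Nat.div_add_mod x u
    have ey := Nat.div_add_mod y u
    have ex' := Nat.div_add_mod x' u
    have ey' := Nat.div_add_mod y' u
    rw [← ex, ← ey, ← ex', ← ey'] at hatt
    obtain ⟨ha, hb⟩ := J_SQmul.key hu (Nat.mod_lt x hu0) (Nat.mod_lt x' hu0) (Nat.mod_lt y hu0)
      (Nat.mod_lt y' hu0) h7 _ _ _ _ hatt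
    rw [ha, hb] at hatt
    have hatt' := J_SQmul.att_div hu0 hatt
    obtain ⟨hX, hY⟩ := hpc _ _ _ _ h1 h2 h3 h4 h9 hatt'
    constructor
    · rw [← ex, ← ex', ha, hX]
    · rw [← ey, ← ey', hb, hY]

end Pool.Agent.T501Q.J1
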