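import Mathlib

set_option autoImplicit false

/-! # Sieve: integers without a divisor in a set of primes with divergent reciprocal sum have density zero (proof written by helper492). -/

/- Idea: for a finite set F of primes in P the set of n with no divisor in F has density prod_{p in F} (1 - 1/p)
(it is periodic mod prod F; count per period by CRT, e.g. induction on F), and the infimum of these products is 0 because
prod (1 - 1/p) ≤ exp (- sum 1/p). -/

namespace Pool.Agent.T501Q.J3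

open Filter Topology


namespace J_helper492

open Finset in
theorem totient_bound (F : Finset ℕ) (hF : ∀ p ∈ F, p.Prime) :
    ((∏ p ∈ F, p).totient : ℝ) / ((∏ p ∈ F, p : ℕ) : ℝ) ≤ Real.exp (- ∑ p ∈ F, (1 : ℝ) / p) := by
  have hQ : (∏ p ∈ F, p).primeFactors = F := Nat.primeFactors_prod hF
  have hpos : 0 < ∏ p ∈ F, p := Finset.prod_pos (fun p hp => (hF p hp).pos)
  have h1 := Nat.totient_eq_mul_prod_factors (∏ p ∈ F, p)
  rw [hQ] at h1
  have h2 : ((∏ p ∈ F, p).totient : ℝ) = ((∏ p ∈ F, p : ℕ) : ℝ) * ∏ p ∈ F, (1 - (p : ℝ)⁻¹) := by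
    have := congrArg (fun x : ℚ => (x : ℝ)) h1
    simp only [Rat.cast_natCast, Rat.cast_mul, Rat.cast_prod, Rat.cast_sub, Rat.cast_one,
      Rat.cast_inv] at this
    exact this
  have hposR : (0 : ℝ) < ((∏ p ∈ F, p : ℕ) : ℝ) := by exact_mod_cast hpos
  rw [h2, mul_div_cancel_left₀ _ hposR.ne', ← Finset.sum_neg_distrib, Real.exp_sum]
  apply Finset.prod_le_prod
  · intro p hp
    have : (1 : ℝ) ≤ p := by exact_mod_cast (hF p hp).one_le
    have := inv_le_one_of_one_le₀ this
    linarith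
  · intro p hp
    have := Real.add_one_le_exp (- ((1 : ℝ) / p))
    rw [one_div] at this ⊢
    linarith

end J_helper492

open Classical in
theorem density_zero (P : Set ℕ) (hP : ∀ p ∈ P, p.Prime)
    (h : ¬ Summable (fun n : ℕ => if n ∈ P then (1 : ℝ) / n else 0)) :
    Tendsto (fun N : ℕ => (((Finset.range N).filter (fun n => ∀ p ∈ P, ¬ p ∣ n)).card : ℝ) / N)
      atTop (𝓝 0) := by
  have hnn : ∀ n : ℕ, 0 ≤ (if n ∈ P then (1 : ℝ) / n else 0) := by
    intro n; split_ifs <;> positivity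
  rw [not_summable_iff_tendsto_nat_atTop_of_nonneg hnn] at h
  rw [Metric.tendsto_atTop]
  intro ε hε
  have h2 : Tendsto (fun n => Real.exp (- ∑ i ∈ Finset.range n, (if i ∈ P then (1 : ℝ) / i else 0)))
      atTop (𝓝 0) := Real.tendsto_exp_neg_atTop_nhds_zero.comp h
  obtain ⟨m, hm⟩ := ((tendsto_order.1 h2).2 (ε / 2) (by positivity)).exists
  set F := (Finset.range m).filter (fun n => n ∈ P) with hFdef
  have hF : ∀ p ∈ F, p.Prime := by
    intro p hp
    exact hP p (Finset.mem_filter.1 hp).2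
  have hb := J_helper492.totient_bound F hF
  have hsum : ∑ p ∈ F, (1 : ℝ) / p = ∑ i ∈ Finset.range m, (if i ∈ P then (1 : ℝ) / i else 0) := by
    rw [hFdef, Finset.sum_filter]
  rw [hsum] at hb
  set Q := ∏ p ∈ F, p with hQdef
  have hQpos : 0 < Q := Finset.prod_pos (fun p hp => (hF p hp).pos)
  have hQR : (0 : ℝ) < Q := by exact_mod_cast hQpos
  obtain ⟨N0, hN0⟩ := exists_nat_gt (2 * (Q.totient : ℝ) / ε)
  refine ⟨N0 + 1, fun N hN => ?_⟩
  have hNpos : 0 < N := by omega
  have hNR : (0 : ℝ) < N := by exact_mod_cast hNpos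
  have hcount : ((Finset.range N).filter (fun n => ∀ p ∈ P, ¬ p ∣ n)).card
      ≤ Q.totient * (N / Q + 1) := by
    refine le_trans (Finset.card_le_card ?_) (Nat.Ico_filter_coprime_le 0 N hQpos.ne')
    intro n hn
    rw [Finset.mem_filter] at hn ⊢
    refine ⟨by simpa using hn.1, ?_⟩
    rw [hQdef]
    apply Nat.Coprime.prod_left
    intro p hp
    rw [(hF p hp).coprime_iff_not_dvd]
    exact hn.2 p (Finset.mem_filter.1 hp).2
  have hcountR : (((Finset.range N).filter (fun n => ∀ p ∈ P, ¬ p ∣ n)).card : ℝ)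
      ≤ (Q.totient : ℝ) * ((N : ℝ) / Q + 1) := by
    have h3 : (((Finset.range N).filter (fun n => ∀ p ∈ P, ¬ p ∣ n)).card : ℝ)
      ≤ (Q.totient : ℝ) * (((N / Q : ℕ) : ℝ) + 1) := by exact_mod_cast hcount
    have h4 : ((N / Q : ℕ) : ℝ) ≤ (N : ℝ) / Q := Nat.cast_div_le
    refine h3.trans ?_
    gcongr
  have hdiv : (((Finset.range N).filter (fun n => ∀ p ∈ P, ¬ p ∣ n)).card : ℝ) / N
      ≤ (Q.totient : ℝ) / Q + (Q.totient : ℝ) / N := by
    rw [div_le_iff₀ hNR]
    refine hcountR.trans (le_of_eq ?_)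
    field_simp
  have hlast : (Q.totient : ℝ) / N < ε / 2 := by
    have hN' : (N0 : ℝ) ≤ N := by
      have : N0 ≤ N := by omega
      exact_mod_cast this
    have h5 : 2 * (Q.totient : ℝ) / ε < N := lt_of_lt_of_le hN0 hN'
    rw [div_lt_iff₀ hε] at h5
    rw [div_lt_iff₀ hNR]
    nlinarith
  rw [Real.dist_eq, sub_zero, abs_of_nonneg (by positivity)]
  linarith

end Pool.Agent.T501Q.J3
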