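import Mathlib

set_option autoImplicit false

/-! # Assembly of the density statement (proof written by helper625). -/

/- Idea: write n = k0 * v with k0 = 2^a * 3^b, v coprime to 6. If k0 = 1 use h1. If a ≥ 1 there is a residue c mod
2730 = 13 * 210, coprime to 2730, such that every p = c mod 2730 satisfies k0 * p = 13 * m + 1 with m coprime to 210
(conditions: k0 c = 1 mod 13; c odd; c = 1 or 2 mod 3 with k0 c ≠ 1 mod 3; k0 c = 2 mod 5; k0 c = 2 mod 7). If a = 0, b ≥ 1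
there is a residue c mod 3360 = 32 * 105 coprime to it with k0 c = 17 mod 32, k0 c = 2 mod 5, k0 c = 2 mod 7, c = 1 mod 3:
then k0 * p = 16 * m + 1 with m coprime to 210. So if v has a prime divisor p = c then n = (k0 * p) * (v / p) satisfies S
by h2. Exceptions with a given k0 have density zero by hD (n = k0 v, v ≤ N / k0; note: an exception n has no prime divisor
p = c at all, because p = c mod q coprime to 6 divides n iff it divides v). Exceptions with 2^i | n or 3^j | n, i, j large,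
have density at most 2^-i + 3^-j. So exceptions below N are contained in {2^i | n} ∪ {3^j | n} ∪ finite union. (n = 0 is one
point.) -/

namespace Pool.Agent.T501Q.J4

open Filter Topology


namespace J_assembly

theorem cop210 (m : ℕ) (h2 : m % 2 ≠ 0) (h3 : m % 3 ≠ 0) (h5 : m % 5 ≠ 0) (h7 : m % 7 ≠ 0) :
    Nat.Coprime m 210 := by
  have e : (210 : ℕ) = 2 * 3 * 5 * 7 := by norm_num
  rw [e]
  refine Nat.Coprime.mul_right (Nat.Coprime.mul_right (Nat.Coprime.mul_right ?_ ?_) ?_) ?_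
  · exact ((Nat.Prime.coprime_iff_not_dvd (by norm_num)).2 (by omega)).symm
  · exact ((Nat.Prime.coprime_iff_not_dvd (by norm_num)).2 (by omega)).symm
  · exact ((Nat.Prime.coprime_iff_not_dvd (by norm_num)).2 (by omega)).symm
  · exact ((Nat.Prime.coprime_iff_not_dvd (by norm_num)).2 (by omega)).symm

theorem cop6 (m : ℕ) (h2 : m % 2 ≠ 0) (h3 : m % 3 ≠ 0) : Nat.Coprime m 6 := by
  have e : (6 : ℕ) = 2 * 3 := by norm_num
  rw [e]
  refine Nat.Coprime.mul_right ?_ ?_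
  · exact ((Nat.Prime.coprime_iff_not_dvd (by norm_num)).2 (by omega)).symm
  · exact ((Nat.Prime.coprime_iff_not_dvd (by norm_num)).2 (by omega)).symm

theorem finA (x : ℕ) (h13 : x % 13 = 1) (h5 : x % 5 = 2) (h7 : x % 7 = 2) (h3 : x % 3 ≠ 1)
    (h2 : x % 2 = 0) : ∃ m, Nat.Coprime m 210 ∧ x = 13 * m + 1 := by
  obtain ⟨m, hm⟩ : ∃ m, x = 13 * m + 1 := ⟨x / 13, by clear h5 h7 h3 h2; omega⟩
  subst hm
  have a2 : m % 2 ≠ 0 := by clear h13 h5 h7 h3; omega
  have a3 : m % 3 ≠ 0 := by clear h13 h5 h7 h2; omega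
  have a5 : m % 5 ≠ 0 := by clear h13 h3 h7 h2; omega
  have a7 : m % 7 ≠ 0 := by clear h13 h3 h5 h2; omega
  exact ⟨m, cop210 m a2 a3 a5 a7, rfl⟩

theorem finB (x : ℕ) (h32 : x % 32 = 17) (h5 : x % 5 = 2) (h7 : x % 7 = 2) (h3 : x % 3 = 0) :
    ∃ m, Nat.Coprime m 210 ∧ x = 16 * m + 1 := by
  obtain ⟨m, hm⟩ : ∃ m, x = 16 * m + 1 := ⟨x / 16, by clear h5 h7 h3; omega⟩
  subst hm
  have a2 : m % 2 ≠ 0 := by clear h5 h7 h3; omega
  have a3 : m % 3 ≠ 0 := by clear h32 h5 h7; omega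
  have a5 : m % 5 ≠ 0 := by clear h32 h3 h7; omega
  have a7 : m % 7 ≠ 0 := by clear h32 h3 h5; omega
  exact ⟨m, cop210 m a2 a3 a5 a7, rfl⟩

/-- the residue class in the even case -/
theorem resA (k : ℕ) (h2 : k % 2 = 0) (h5 : k % 5 ≠ 0) (h7 : k % 7 ≠ 0) (h13 : k % 13 ≠ 0) :
    ∃ c : ℕ, Nat.Coprime c 2730 ∧ ∀ p, p % 2730 = c % 2730 →
      ∃ m, Nat.Coprime m 210 ∧ k * p = 13 * m + 1 := by
  have q13 : ∀ r < 13, r ≠ 0 → ∃ c < 13, c ≠ 0 ∧ (r * c) % 13 = 1 := by decide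
  have q5 : ∀ r < 5, r ≠ 0 → ∃ c < 5, c ≠ 0 ∧ (r * c) % 5 = 2 := by decide
  have q7 : ∀ r < 7, r ≠ 0 → ∃ c < 7, c ≠ 0 ∧ (r * c) % 7 = 2 := by decide
  have q3 : ∀ r < 3, ∃ c < 3, c ≠ 0 ∧ (r * c) % 3 ≠ 1 := by decide
  obtain ⟨c13, b13, n13, e13⟩ := q13 (k % 13) (Nat.mod_lt _ (by norm_num)) h13
  obtain ⟨c5, b5, n5, e5⟩ := q5 (k % 5) (Nat.mod_lt _ (by norm_num)) h5
  obtain ⟨c7, b7, n7, e7⟩ := q7 (k % 7) (Nat.mod_lt _ (by norm_num)) h7
  obtain ⟨c3, b3, n3, e3⟩ := q3 (k % 3) (Nat.mod_lt _ (by norm_num))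
  obtain ⟨c, hc⟩ : ∃ c, c = 1470 * c13 + 910 * c3 + 546 * c5 + 1170 * c7 + 1365 := ⟨_, rfl⟩
  have m13 : c % 13 = c13 := by omega
  have m5 : c % 5 = c5 := by omega
  have m7 : c % 7 = c7 := by omega
  have m3 : c % 3 = c3 := by omega
  have m2 : c % 2 = 1 := by omega
  refine ⟨c, ?_, ?_⟩
  · have e : (2730 : ℕ) = 210 * 13 := by norm_num
    rw [e]
    refine Nat.Coprime.mul_right (cop210 c (by omega) (by omega) (by omega) (by omega)) ?_
    exact ((Nat.Prime.coprime_iff_not_dvd (by norm_num)).2 (by omega)).symm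
  · intro p hp
    have p13 : p % 13 = c13 := by omega
    have p5 : p % 5 = c5 := by omega
    have p7 : p % 7 = c7 := by omega
    have p3 : p % 3 = c3 := by omega
    have k13 : (k * p) % 13 = 1 := by rw [Nat.mul_mod, p13]; exact e13
    have k5 : (k * p) % 5 = 2 := by rw [Nat.mul_mod, p5]; exact e5
    have k7 : (k * p) % 7 = 2 := by rw [Nat.mul_mod, p7]; exact e7
    have k3 : (k * p) % 3 ≠ 1 := by rw [Nat.mul_mod, p3]; exact e3
    have k2 : (k * p) % 2 = 0 := by rw [Nat.mul_mod, h2, zero_mul, Nat.zero_mod]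
    exact finA _ k13 k5 k7 k3 k2

/-- the residue class in the odd case -/
theorem resB (k : ℕ) (h2 : k % 2 = 1) (h3 : k % 3 = 0) (h5 : k % 5 ≠ 0) (h7 : k % 7 ≠ 0) :
    ∃ c : ℕ, Nat.Coprime c 3360 ∧ ∀ p, p % 3360 = c % 3360 →
      ∃ m, Nat.Coprime m 210 ∧ k * p = 16 * m + 1 := by
  have q32 : ∀ r < 32, r % 2 = 1 → ∃ c < 32, c % 2 = 1 ∧ (r * c) % 32 = 17 := by decide
  have q5 : ∀ r < 5, r ≠ 0 → ∃ c < 5, c ≠ 0 ∧ (r * c) % 5 = 2 := by decide
  have q7 : ∀ r < 7, r ≠ 0 → ∃ c < 7, c ≠ 0 ∧ (r * c) % 7 = 2 := by decide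
  obtain ⟨c32, b32, n32, e32⟩ := q32 (k % 32) (Nat.mod_lt _ (by norm_num)) (by omega)
  obtain ⟨c5, b5, n5, e5⟩ := q5 (k % 5) (Nat.mod_lt _ (by norm_num)) h5
  obtain ⟨c7, b7, n7, e7⟩ := q7 (k % 7) (Nat.mod_lt _ (by norm_num)) h7
  obtain ⟨c, hc⟩ : ∃ c, c = 2625 * c32 + 1120 + 2016 * c5 + 960 * c7 := ⟨_, rfl⟩
  have m32 : c % 32 = c32 := by omega
  have m5 : c % 5 = c5 := by omega
  have m7 : c % 7 = c7 := by omega
  have m3 : c % 3 = 1 := by omega
  refine ⟨c, ?_, ?_⟩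
  · have e : (3360 : ℕ) = 210 * 16 := by norm_num
    rw [e]
    refine Nat.Coprime.mul_right (cop210 c (by omega) (by omega) (by omega) (by omega)) ?_
    have e2 : (16 : ℕ) = 2 ^ 4 := by norm_num
    rw [e2]
    exact Nat.Coprime.pow_right 4 ((Nat.Prime.coprime_iff_not_dvd (by norm_num)).2 (by omega)).symm
  · intro p hp
    have p32 : p % 32 = c32 := by omega
    have p5 : p % 5 = c5 := by omega
    have p7 : p % 7 = c7 := by omega
    have k32 : (k * p) % 32 = 17 := by rw [Nat.mul_mod, p32]; exact e32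
    have k5 : (k * p) % 5 = 2 := by rw [Nat.mul_mod, p5]; exact e5
    have k7 : (k * p) % 7 = 2 := by rw [Nat.mul_mod, p7]; exact e7
    have k3 : (k * p) % 3 = 0 := by rw [Nat.mul_mod, h3, zero_mul, Nat.zero_mod]
    exact finB _ k32 k5 k7 k3

theorem pow_mod_ne (a b r : ℕ) (hr : r.Prime) (h2 : r ≠ 2) (h3 : r ≠ 3) : (2 ^ a * 3 ^ b) % r ≠ 0 := by
  intro h
  have h1 : r ∣ 2 ^ a * 3 ^ b := Nat.dvd_of_mod_eq_zero h
  rcases (Nat.Prime.dvd_mul hr).1 h1 with h4 | h4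
  · exact h2 ((Nat.prime_dvd_prime_iff_eq hr Nat.prime_two).1 (hr.dvd_of_dvd_pow h4))
  · exact h3 ((Nat.prime_dvd_prime_iff_eq hr Nat.prime_three).1 (hr.dvd_of_dvd_pow h4))

/-- the residue class belonging to `2 ^ a * 3 ^ b` -/
theorem res (S : ℕ → Prop) (h3 : ∀ m, Nat.Coprime m 210 → S (13 * m + 1))
    (h4 : ∀ m, Nat.Coprime m 210 → S (16 * m + 1)) (a b : ℕ) (hab : a ≠ 0 ∨ b ≠ 0) :
    ∃ q c : ℕ, 0 < q ∧ 6 ∣ q ∧ Nat.Coprime c q ∧ ∀ p, p % q = c % q → S (2 ^ a * 3 ^ b * p) := by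
  by_cases ha : a = 0
  · have hb : b ≠ 0 := by tauto
    obtain ⟨b', rfl⟩ := Nat.exists_eq_succ_of_ne_zero hb
    obtain ⟨c, hc, hp⟩ := resB (2 ^ a * 3 ^ (b' + 1)) (by
        rw [ha, pow_zero, one_mul]
        exact Nat.odd_iff.1 (Odd.pow (by decide)))
      (by rw [pow_succ, ← mul_assoc]; exact Nat.mul_mod_left _ _)
      (pow_mod_ne _ _ 5 (by norm_num) (by norm_num) (by norm_num))
      (pow_mod_ne _ _ 7 (by norm_num) (by norm_num) (by norm_num))
    refine ⟨3360, c, by norm_num, by norm_num, hc, fun p h => ?_⟩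
    obtain ⟨m, hm, e⟩ := hp p h
    rw [e]
    exact h4 m hm
  · obtain ⟨a', rfl⟩ := Nat.exists_eq_succ_of_ne_zero ha
    obtain ⟨c, hc, hp⟩ := resA (2 ^ (a' + 1) * 3 ^ b) (by
        rw [pow_succ, mul_right_comm]; exact Nat.mul_mod_left _ _)
      (pow_mod_ne _ _ 5 (by norm_num) (by norm_num) (by norm_num))
      (pow_mod_ne _ _ 7 (by norm_num) (by norm_num) (by norm_num))
      (pow_mod_ne _ _ 13 (by norm_num) (by norm_num) (by norm_num))
    refine ⟨2730, c, by norm_num, by norm_num, hc, fun p h => ?_⟩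
    obtain ⟨m, hm, e⟩ := hp p h
    rw [e]
    exact h3 m hm

open Classical in
theorem part_tendsto (S : ℕ → Prop) (h1 : ∀ n, Nat.Coprime n 6 → S n)
    (h2 : ∀ k u, S k → Nat.Coprime u 6 → S (k * u))
    (h3 : ∀ m, Nat.Coprime m 210 → S (13 * m + 1))
    (h4 : ∀ m, Nat.Coprime m 210 → S (16 * m + 1))
    (hD : ∀ q a : ℕ, 0 < q → Nat.Coprime a q →
      Tendsto (fun N : ℕ => (((Finset.range N).filter
        (fun n => ∀ p : ℕ, p.Prime → p % q = a % q → ¬ p ∣ n)).card : ℝ) / N) atTop (𝓝 0)) (a b : ℕ) :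
    Tendsto (fun N : ℕ => (((Finset.range N).filter
      (fun n => ¬ S n ∧ ∃ v, Nat.Coprime v 6 ∧ n = 2 ^ a * 3 ^ b * v)).card : ℝ) / N) atTop (𝓝 0) := by
  by_cases hab : a ≠ 0 ∨ b ≠ 0
  · obtain ⟨q, c, hq, h6, hc, hp⟩ := res S h3 h4 a b hab
    refine squeeze_zero (fun N => by positivity) (fun N => ?_) (hD q c hq hc)
    refine div_le_div_of_nonneg_right ?_ (Nat.cast_nonneg N)
    refine Nat.cast_le.2 (Finset.card_le_card ?_)
    intro n hn
    rw [Finset.mem_filter] at hn ⊢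
    refine ⟨hn.1, ?_⟩
    obtain ⟨hS, v, hv, rfl⟩ := hn.2
    intro p hpp hpc hdvd
    apply hS
    have hpq : Nat.Coprime p q := by
      have e1 : Nat.gcd p q = Nat.gcd c q := Nat.ModEq.gcd_eq hpc
      rw [Nat.Coprime, e1]
      exact hc
    have hp6 : Nat.Coprime p 6 := Nat.Coprime.coprime_dvd_right h6 hpq
    have hpv : p ∣ v := by
      rcases (Nat.Prime.dvd_mul hpp).1 hdvd with h | h
      · exfalso
        have hk : Nat.Coprime p (2 ^ a * 3 ^ b) := by
          refine Nat.Coprime.mul_right (Nat.Coprime.pow_right a ?_) (Nat.Coprime.pow_right b ?_)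
          · exact Nat.Coprime.coprime_dvd_right (by norm_num) hp6
          · exact Nat.Coprime.coprime_dvd_right (by norm_num) hp6
        have h5 := Nat.Coprime.eq_one_of_dvd hk h
        exact hpp.one_lt.ne' h5
      · exact h
    obtain ⟨u, rfl⟩ := hpv
    have e : 2 ^ a * 3 ^ b * (p * u) = 2 ^ a * 3 ^ b * p * u := by ring
    rw [e]
    exact h2 _ u (hp p hpc) (Nat.Coprime.coprime_dvd_left (Dvd.intro_left p rfl) hv)
  · push Not at hab
    have h0 : ∀ N : ℕ, (((Finset.range N).filter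
      (fun n => ¬ S n ∧ ∃ v, Nat.Coprime v 6 ∧ n = 2 ^ a * 3 ^ b * v)).card : ℝ) / N = 0 := by
      intro N
      rw [Finset.filter_false_of_mem]
      · simp
      · rintro n _ ⟨hS, v, hv, rfl⟩
        apply hS
        rw [hab.1, hab.2, pow_zero, pow_zero, one_mul, one_mul]
        exact h1 v hv
    simp only [h0]
    exact tendsto_const_nhds

theorem card_mult (N m : ℕ) :
    (((Finset.range N).filter (fun n => m ∣ n)).card : ℝ) ≤ N / m + 1 := by
  have h1 : ((Finset.range N).filter (fun n => m ∣ n)).card ≤ N / m + 1 := by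
    have h2 : ((Finset.range N).filter (fun n => m ∣ n)).card ≤ (Finset.range (N / m + 1)).card := by
      refine Finset.card_le_card_of_injOn (fun n => n / m) ?_ ?_
      · intro n hn
        rw [Finset.mem_coe, Finset.mem_filter, Finset.mem_range] at hn
        rw [Finset.mem_coe, Finset.mem_range]
        exact Nat.lt_succ_of_le (Nat.div_le_div_right hn.1.le)
      · intro x hx y hy h
        rw [Finset.mem_coe, Finset.mem_filter] at hx hy
        have e1 := Nat.div_mul_cancel hx.2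
        have e2 := Nat.div_mul_cancel hy.2
        simp only at h
        rw [← e1, ← e2, h]
    rwa [Finset.card_range] at h2
  have h3 : ((N / m : ℕ) : ℝ) ≤ (N : ℝ) / m := Nat.cast_div_le
  have h4 : (((Finset.range N).filter (fun n => m ∣ n)).card : ℝ) ≤ ((N / m : ℕ) : ℝ) + 1 := by
    exact_mod_cast h1
  linarith

open Classical in
theorem count_le (S : ℕ → Prop) (i N : ℕ) :
    (((Finset.range N).filter (fun n => ¬ S n)).card : ℝ) ≤
      ∑ ab ∈ Finset.range i ×ˢ Finset.range i, (((Finset.range N).filter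
        (fun n => ¬ S n ∧ ∃ v, Nat.Coprime v 6 ∧ n = 2 ^ ab.1 * 3 ^ ab.2 * v)).card : ℝ) +
      ((N : ℝ) / (2 ^ i : ℕ) + 1) + ((N : ℝ) / (3 ^ i : ℕ) + 1) := by
  have hsub : (Finset.range N).filter (fun n => ¬ S n) ⊆
      ((Finset.range i ×ˢ Finset.range i).biUnion (fun ab => (Finset.range N).filter
        (fun n => ¬ S n ∧ ∃ v, Nat.Coprime v 6 ∧ n = 2 ^ ab.1 * 3 ^ ab.2 * v)) ∪
      (Finset.range N).filter (fun n => 2 ^ i ∣ n)) ∪ (Finset.range N).filter (fun n => 3 ^ i ∣ n) := by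
    intro n hn
    rw [Finset.mem_filter] at hn
    obtain ⟨hN, hS⟩ := hn
    by_cases h0 : n = 0
    · subst h0
      refine Finset.mem_union_left _ (Finset.mem_union_right _ (Finset.mem_filter.2 ⟨hN, ?_⟩))
      exact dvd_zero _
    obtain ⟨a, n', ha, e1⟩ := Nat.exists_eq_pow_mul_and_not_dvd h0 2 (by norm_num)
    have h0' : n' ≠ 0 := by
      rintro rfl
      exact ha (dvd_zero _)
    obtain ⟨b, v, hb, e2⟩ := Nat.exists_eq_pow_mul_and_not_dvd h0' 3 (by norm_num)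
    by_cases hai : i ≤ a
    · refine Finset.mem_union_left _ (Finset.mem_union_right _ (Finset.mem_filter.2 ⟨hN, ?_⟩))
      rw [e1]
      exact dvd_mul_of_dvd_left (pow_dvd_pow 2 hai) _
    · by_cases hbi : i ≤ b
      · refine Finset.mem_union_right _ (Finset.mem_filter.2 ⟨hN, ?_⟩)
        rw [e1, e2]
        exact dvd_mul_of_dvd_right (dvd_mul_of_dvd_left (pow_dvd_pow 3 hbi) _) _
      · refine Finset.mem_union_left _ (Finset.mem_union_left _ (Finset.mem_biUnion.2 ⟨(a, b), ?_, ?_⟩))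
        · rw [Finset.mem_product, Finset.mem_range, Finset.mem_range]
          exact ⟨not_le.1 hai, not_le.1 hbi⟩
        · rw [Finset.mem_filter]
          refine ⟨hN, hS, v, ?_, ?_⟩
          · refine cop6 v ?_ ?_
            · intro h
              apply ha
              rw [e2]
              exact dvd_mul_of_dvd_right (Nat.dvd_of_mod_eq_zero h) _
            · intro h
              exact hb (Nat.dvd_of_mod_eq_zero h)
          · show n = 2 ^ a * 3 ^ b * v
            rw [mul_assoc, ← e2]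
            exact e1
  have h1 := (Finset.card_le_card hsub).trans ((Finset.card_union_le _ _).trans
    (Nat.add_le_add_right ((Finset.card_union_le _ _).trans
      (Nat.add_le_add_right Finset.card_biUnion_le _)) _))
  have h2 := card_mult N (2 ^ i)
  have h3 := card_mult N (3 ^ i)
  have h4 : (((Finset.range N).filter (fun n => ¬ S n)).card : ℝ) ≤
      ∑ ab ∈ Finset.range i ×ˢ Finset.range i, (((Finset.range N).filter
        (fun n => ¬ S n ∧ ∃ v, Nat.Coprime v 6 ∧ n = 2 ^ ab.1 * 3 ^ ab.2 * v)).card : ℝ) +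
      (((Finset.range N).filter (fun n => 2 ^ i ∣ n)).card : ℝ) +
      (((Finset.range N).filter (fun n => 3 ^ i ∣ n)).card : ℝ) := by exact_mod_cast h1
  linarith

end J_assembly

open Classical in
theorem assembly (S : ℕ → Prop) (h1 : ∀ n, Nat.Coprime n 6 → S n)
    (h2 : ∀ k u, S k → Nat.Coprime u 6 → S (k * u))
    (h3 : ∀ m, Nat.Coprime m 210 → S (13 * m + 1))
    (h4 : ∀ m, Nat.Coprime m 210 → S (16 * m + 1))
    (hD : ∀ q a : ℕ, 0 < q → Nat.Coprime a q →
      Tendsto (fun N : ℕ => (((Finset.range N).filter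
        (fun n => ∀ p : ℕ, p.Prime → p % q = a % q → ¬ p ∣ n)).card : ℝ) / N) atTop (𝓝 0)) :
    Tendsto (fun N : ℕ => (((Finset.range N).filter (fun n => ¬ S n)).card : ℝ) / N)
      atTop (𝓝 0) := by
  rw [Metric.tendsto_atTop]
  intro ε hε
  obtain ⟨i, hi⟩ := exists_pow_lt_of_lt_one (show (0 : ℝ) < ε / 4 by linarith) (show (1 / 2 : ℝ) < 1 by norm_num)
  have hg : Tendsto (fun N : ℕ => (∑ ab ∈ Finset.range i ×ˢ Finset.range i, (((Finset.range N).filter
        (fun n => ¬ S n ∧ ∃ v, Nat.Coprime v 6 ∧ n = 2 ^ ab.1 * 3 ^ ab.2 * v)).card : ℝ) / N) +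
        2 / (N : ℝ)) atTop (𝓝 0) := by
    have h5 : Tendsto (fun N : ℕ => 2 / (N : ℝ)) atTop (𝓝 0) := tendsto_const_div_atTop_nhds_zero_nat 2
    have h6 := tendsto_finsetSum (Finset.range i ×ˢ Finset.range i)
      (fun ab _ => J_assembly.part_tendsto S h1 h2 h3 h4 hD ab.1 ab.2)
    have h7 := h6.add h5
    simpa using h7
  rw [Metric.tendsto_atTop] at hg
  obtain ⟨N0, hN0⟩ := hg (ε / 2) (by linarith)
  refine ⟨max N0 1, fun N hN => ?_⟩
  have hN1 : 1 ≤ N := (le_max_right _ _).trans hN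
  have hNpos : (0 : ℝ) < N := by exact_mod_cast hN1
  have h8 := hN0 N ((le_max_left _ _).trans hN)
  rw [Real.dist_eq, sub_zero] at h8 ⊢
  have h9 := (abs_lt.1 h8).2
  rw [abs_of_nonneg (by positivity)]
  have h10 := J_assembly.count_le S i N
  have h11 : (((Finset.range N).filter (fun n => ¬ S n)).card : ℝ) / N ≤
      (∑ ab ∈ Finset.range i ×ˢ Finset.range i, (((Finset.range N).filter
        (fun n => ¬ S n ∧ ∃ v, Nat.Coprime v 6 ∧ n = 2 ^ ab.1 * 3 ^ ab.2 * v)).card : ℝ) / N) +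
        2 / (N : ℝ) + ((1 / 2) ^ i + (1 / 3) ^ i) := by
    rw [div_le_iff₀ hNpos]
    refine h10.trans (le_of_eq ?_)
    rw [← Finset.sum_div, one_div_pow, one_div_pow]
    push_cast
    field_simp
    ring
  have h12 : ((1 : ℝ) / 3) ^ i ≤ (1 / 2) ^ i := pow_le_pow_left₀ (by norm_num) (by norm_num) i
  linarith

end Pool.Agent.T501Q.J4
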