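import Mathlib

set_option autoImplicit false

/-! # The insertion theorem (proof written by helper521). -/

namespace Pool.Agent.T501Q.J5

/-- two cells lie on a common row, column or diagonal -/
def Att (x y x' y' : ℕ) : Prop := x = x' ∨ y = y' ∨ x + y' = x' + y ∨ x + y = x' + y'

/-- `f` is a proper colouring of the `n × n` queens graph -/
def PC {α : Type*} (n : ℕ) (f : ℕ → ℕ → α) : Prop :=
  ∀ x y x' y', x < n → y < n → x' < n → y' < n → f x y = f x' y' → Att x y x' y' →
    x = x' ∧ y = y'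

/-- the `n × n` queens graph is `n`-colourable -/
def SQ (n : ℕ) : Prop := ∃ f : ℕ → ℕ → ℕ, (∀ x y, x < n → y < n → f x y < n) ∧ PC n f

/-- the row of the foreign cell of column `Y` -/
def R (K X0 X1 Y : ℕ) : ℕ := if Y = 0 then X0 else if Y = K - 1 then X1 else K

/-- the finite gadget: `Gp` a proper colouring of the `(K+1)`-board with last row `0, 1, ..., K`, `NR` a proper colouring of
the `K`-board with `NR X0 0 = 0`, `NR X1 (K-1) = K-1`, colour `0` missing on the antidiagonal `X + Y = K`, colour `K-1`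
missing on the diagonal `X = Y + 1`; `D0, D1, A0, A1` proper colourings of the `K`-board whose colour class `c` misses one
given diagonal. -/
structure Gadget (K X0 X1 : ℕ) (Gp NR D0 D1 A0 A1 : ℕ → ℕ → ℕ) : Prop where
  hK : 3 ≤ K
  hX0 : X0 < K
  hX1 : X1 < K
  gp : PC (K + 1) Gp
  gp_le : ∀ X Y, X ≤ K → Y ≤ K → Gp X Y ≤ K
  gp_last : ∀ Y, Y ≤ K → Gp K Y = Y
  nr : PC K NR
  nr_lt : ∀ X Y, X < K → Y < K → NR X Y < K
  nr0 : NR X0 0 = 0
  nr1 : NR X1 (K - 1) = K - 1
  nrA : ∀ X Y, X < K → Y < K → NR X Y = 0 → X + Y ≠ K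
  nrD : ∀ X Y, X < K → Y < K → NR X Y = K - 1 → X ≠ Y + 1
  d0 : PC K D0
  d0_lt : ∀ X Y, X < K → Y < K → D0 X Y < K
  d0_av : ∀ X Y, X < K → Y < K → X + D0 X Y ≠ R K X0 X1 (D0 X Y) + Y
  d1 : PC K D1
  d1_lt : ∀ X Y, X < K → Y < K → D1 X Y < K
  d1_av : ∀ X Y, X < K → Y < K → X + D1 X Y + 1 ≠ R K X0 X1 (D1 X Y) + Y
  a0 : PC K A0
  a0_lt : ∀ X Y, X < K → Y < K → A0 X Y < K
  a0_av : ∀ X Y, X < K → Y < K → X + Y ≠ R K X0 X1 (A0 X Y) + A0 X Y
  a1 : PC K A1
  a1_lt : ∀ X Y, X < K → Y < K → A1 X Y < K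
  a1_av : ∀ X Y, X < K → Y < K → X + Y + 1 ≠ R K X0 X1 (A1 X Y) + A1 X Y

/- PROOF (checked by computer on several instances). Let n = K m + 1, x = m X + a, y = m Y + b with a, b < m (so x = K m is
X = K, a = 0), α, β the classes of a, b in ZMod m (2, 3, 5, 7 are units), psi X = Gp X K, N = K m. Colours: Option (ZMod m × ℕ)
with names < K (K m + 1 of them). `none` is called ∞.
 ROW-FOREIGN cells: a = 0, b ≠ 0, Y < K, X = R(Y): colour (-6β, Y).
 COLUMN-FOREIGN cells: b = 0, a ≠ 0, X < K, Y = R(X): colour (-3α, psi X).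
 REGULAR cells: all the others; colour (2β - 4α, H X Y), where H depends on (a, b):
   α = 2β (includes a = b = 0):  H = Gp, and the colour is ∞ when Gp X Y = K;      (type W)
   a = 0, b ≠ 0 :  H = NR for X < K;  if X = K (then Y = 0 or Y = K-1, else it is foreign): H K Y = Y;   (type NR)
   b = 0, a ≠ 0 :  H X Y = psi (NR Y X) for Y < K;  if Y = K (then X = 0 or K-1): H X K = psi X;   (type NC)
   5α = 4β :  H = D0 if a < b, D1 if a > b;
   α = -4β :  H = A0 if a + b < m, A1 otherwise;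
   α = -β :  H X Y = psi (D0 Y X) if a > b, psi (D1 Y X) if a < b;
   α = 5β :  H X Y = psi (A0 Y X) if a + b < m, psi (A1 Y X) otherwise;
   otherwise H = NR.
 (These seven lines through the origin of (ZMod m)^2 meet only in 0 because all 2 x 2 determinants are products of 2, 3, 5, 7.)
 psi is a bijection of {0..K-1} because the last column of Gp contains every colour once and Gp K K = K.
 PROPERNESS.
 (i) regular-regular, same colour: on a row a = a', and 2β - 4α = 2β' - 4α' gives b = b'; on a column the same; on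
 x - y = x' - y': α - β = α' - β' and 2β - 4α equal give α = α' , β = β' ; on x + y = x' + y' likewise (6 is a unit). So both cells
 are in the same sub-board (a, b) and H(X,Y) = H(X',Y') with (X,Y), (X',Y') attacking each other on the board of side K or K+1:
 use properness of H (for type NR on rows 0..K: nrA, nrD say that the moved cells (K,0), (K,K-1) are not attacked
 by their colour; the cells (X0,0), (X1,K-1) were removed). The two ∞ cells: α = 2β, α' = 2β', same argument.
 (ii) row-foreign (mR(Y'), mY'+b'), b' ≠ 0, colour (-6β', Y') against regular (X,a,Y,b): 2β - 4α = -6β', H X Y = Y'.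
   row: a = 0, X = R(Y'), β = -3β' ≠ 0, so type NR, row R(Y'): colour Y' is not there (only at the removed cell, resp. row K
   has only the names 0 at Y=0 and K-1 at Y=K-1). column: b = b', Y = Y', α = 2β': type W, Gp X Y' = Y' with X < K: impossible since
   Gp K Y' = Y'. diagonal x - y: α = 4β', β = 5β': type D, a ≠ b, and X - Y = R(Y') - Y' (a < b) resp. R(Y') - Y' - 1 (a > b):
   excluded by d0_av, d1_av. diagonal x + y: α = -4β, β' = -3β: type A: X + Y = R(Y') + Y' (a + b < m) resp. R(Y') + Y' - 1.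
 (iii) column-foreign (mX'+a', mR(X')), colour (-3α', psi X') against regular: transpose of (ii): row: type W; column: type NC;
   x - y: α' = 2α, β = -α; x + y: α = 5β, α' = 6β.
 (iv) two row-foreign cells of the same colour are equal; two column-foreign too. Row-foreign against column-foreign:
   α' = 2β' and a row or column is impossible (a', b' ≠ 0); x - y gives a' + b' = 0 mod m, so 3β' = 0; x + y gives a' = b' , so β' = 0.
 The colour set has K m + 1 elements; transfer to ℕ-valued colours through a Finset of cardinality K m + 1. -/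


namespace J_helper521

theorem divlem {m p q u v : ℕ} (h : m * p + u = m * q + v) (h1 : u < v + m) (h2 : v < u + m) :
    p = q := by
  rcases lt_trichotomy p q with h3 | h3 | h3
  · exfalso
    have h4 : m * (p + 1) ≤ m * q := Nat.mul_le_mul_left m h3
    rw [mul_add, mul_one] at h4
    omega
  · exact h3
  · exfalso
    have h4 : m * (q + 1) ≤ m * p := Nat.mul_le_mul_left m h3
    rw [mul_add, mul_one] at h4
    omega

theorem canc {m : ℕ} (k : ℕ) (hk : Nat.Coprime k m) {z : ZMod m} (h : (k : ZMod m) * z = 0) :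
    z = 0 := by
  have hu : IsUnit (k : ZMod m) := (ZMod.isUnit_iff_coprime k m).2 hk
  exact (hu.mul_right_eq_zero).1 h

theorem units {m : ℕ} (hm : Nat.Coprime m 210) :
    (∀ z : ZMod m, 2 * z = 0 → z = 0) ∧ (∀ z : ZMod m, 3 * z = 0 → z = 0) ∧
    (∀ z : ZMod m, 5 * z = 0 → z = 0) ∧ (∀ z : ZMod m, 7 * z = 0 → z = 0) := by
  have key : ∀ k : ℕ, k ∣ 210 → ∀ z : ZMod m, (k : ZMod m) * z = 0 → z = 0 := by
    intro k hk z hz
    exact canc k (Nat.Coprime.coprime_dvd_right hk hm).symm hz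
  refine ⟨?_, ?_, ?_, ?_⟩
  · intro z hz
    exact key 2 (by decide) z (by exact_mod_cast hz)
  · intro z hz
    exact key 3 (by decide) z (by exact_mod_cast hz)
  · intro z hz
    exact key 5 (by decide) z (by exact_mod_cast hz)
  · intro z hz
    exact key 7 (by decide) z (by exact_mod_cast hz)

/-- the colouring of the interior boards -/
def G {m : ℕ} (NR D0 D1 A0 A1 : ℕ → ℕ → ℕ) (ps : ℕ → ℕ) (α β : ZMod m) (X Y : ℕ) : ℕ :=
  if 5 * α = 4 * β then (if α.val < β.val then D0 X Y else D1 X Y)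
  else if α = -(4 * β) then (if α.val + β.val < m then A0 X Y else A1 X Y)
  else if α = -β then (if β.val < α.val then ps (D0 Y X) else ps (D1 Y X))
  else if α = 5 * β then (if α.val + β.val < m then ps (A0 Y X) else ps (A1 Y X))
  else NR X Y

theorem Att.swap {x y x' y' : ℕ} (h : Att x y x' y') : Att y x y' x' := by
  unfold Att at *
  omega

theorem Att.symm' {x y x' y' : ℕ} (h : Att x y x' y') : Att x' y' x y := by
  unfold Att at *
  omega

theorem pc_tr {K : ℕ} {D : ℕ → ℕ → ℕ} {ps : ℕ → ℕ} (hD : PC K D)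
    (hlt : ∀ X Y, X < K → Y < K → D X Y < K)
    (hps : ∀ i j, i < K → j < K → ps i = ps j → i = j) : PC K (fun X Y => ps (D Y X)) := by
  intro x y x' y' hx hy hx' hy' h ha
  have h1 := hps _ _ (hlt y x hy hx) (hlt y' x' hy' hx') h
  obtain ⟨h2, h3⟩ := hD y x y' x' hy hx hy' hx' h1 (Att.swap ha)
  exact ⟨h3, h2⟩

section
variable {K X0 X1 : ℕ} {Gp NR D0 D1 A0 A1 : ℕ → ℕ → ℕ}

theorem ps_lt (g : Gadget K X0 X1 Gp NR D0 D1 A0 A1) {i : ℕ} (hi : i < K) : Gp i K < K := by
  have h1 := g.gp_le i K hi.le le_rfl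
  rcases Nat.lt_or_ge (Gp i K) K with h | h
  · exact h
  · exfalso
    have h2 : Gp i K = Gp K K := by
      rw [g.gp_last K le_rfl]
      omega
    have h3 := g.gp i K K K (by omega) (by omega) (by omega) (by omega) h2 (Or.inr (Or.inl rfl))
    omega

theorem ps_inj (g : Gadget K X0 X1 Gp NR D0 D1 A0 A1) :
    ∀ i j, i < K → j < K → Gp i K = Gp j K → i = j := by
  intro i j hi hj h
  exact (g.gp i K j K (by omega) (by omega) (by omega) (by omega) h (Or.inr (Or.inl rfl))).1

theorem G_pc (g : Gadget K X0 X1 Gp NR D0 D1 A0 A1) {m : ℕ} (α β : ZMod m) :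
    PC K (G NR D0 D1 A0 A1 (fun i => Gp i K) α β) := by
  have e1 := pc_tr g.d0 g.d0_lt (ps := fun i => Gp i K) (ps_inj g)
  have e2 := pc_tr g.d1 g.d1_lt (ps := fun i => Gp i K) (ps_inj g)
  have e3 := pc_tr g.a0 g.a0_lt (ps := fun i => Gp i K) (ps_inj g)
  have e4 := pc_tr g.a1 g.a1_lt (ps := fun i => Gp i K) (ps_inj g)
  intro x y x' y' hx hy hx' hy' h ha
  unfold G at h
  split_ifs at h
  · exact g.d0 x y x' y' hx hy hx' hy' h ha
  · exact g.d1 x y x' y' hx hy hx' hy' h ha
  · exact g.a0 x y x' y' hx hy hx' hy' h ha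
  · exact g.a1 x y x' y' hx hy hx' hy' h ha
  · exact e1 x y x' y' hx hy hx' hy' h ha
  · exact e2 x y x' y' hx hy hx' hy' h ha
  · exact e3 x y x' y' hx hy hx' hy' h ha
  · exact e4 x y x' y' hx hy hx' hy' h ha
  · exact g.nr x y x' y' hx hy hx' hy' h ha

theorem G_lt (g : Gadget K X0 X1 Gp NR D0 D1 A0 A1) {m : ℕ} (α β : ZMod m) {X Y : ℕ}
    (hX : X < K) (hY : Y < K) : G NR D0 D1 A0 A1 (fun i => Gp i K) α β X Y < K := by
  unfold G
  split_ifs
  · exact g.d0_lt X Y hX hY
  · exact g.d1_lt X Y hX hY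
  · exact g.a0_lt X Y hX hY
  · exact g.a1_lt X Y hX hY
  · exact ps_lt g (g.d0_lt Y X hY hX)
  · exact ps_lt g (g.d1_lt Y X hY hX)
  · exact ps_lt g (g.a0_lt Y X hY hX)
  · exact ps_lt g (g.a1_lt Y X hY hX)
  · exact g.nr_lt X Y hX hY

theorem R_zero : R K X0 X1 0 = X0 := by simp [R]

theorem R_last (hK : 3 ≤ K) : R K X0 X1 (K - 1) = X1 := by
  unfold R
  rw [if_neg (by omega), if_pos rfl]

theorem R_mid {Y : ℕ} (h0 : Y ≠ 0) (h1 : Y ≠ K - 1) : R K X0 X1 Y = K := by
  unfold R
  rw [if_neg h0, if_neg h1]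

/-- the row with the additional cells -/
def NX (K : ℕ) (NR : ℕ → ℕ → ℕ) (X Y : ℕ) : ℕ := if X = K then Y else NR X Y

theorem NX_lt (g : Gadget K X0 X1 Gp NR D0 D1 A0 A1) {X Y : ℕ} (hX : X ≤ K) (hY : Y < K) :
    NX K NR X Y < K := by
  unfold NX
  split_ifs with h
  · exact hY
  · exact g.nr_lt X Y (by omega) hY

/-- properness of the boards of the type NR, one cell in the last row -/
theorem NX_one (g : Gadget K X0 X1 Gp NR D0 D1 A0 A1) {Y X' Y' : ℕ} (hY : Y < K)
    (hX' : X' < K) (hY' : Y' < K) (hr : K ≠ R K X0 X1 Y) (hr' : X' ≠ R K X0 X1 Y')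
    (h : Y = NR X' Y') (ha : Att K Y X' Y') : False := by
  have hK := g.hK
  have hY2 : Y = 0 ∨ Y = K - 1 := by
    by_contra hcon
    push Not at hcon
    exact hr (R_mid hcon.1 hcon.2).symm
  rcases hY2 with rfl | hYe
  · rcases ha with h1 | h1 | h1 | h1
    · omega
    · subst h1
      have h2 := g.nr X' 0 X0 0 hX' hY g.hX0 hY (by rw [← h, g.nr0]) (Or.inr (Or.inl rfl))
      rw [R_zero] at hr'
      exact hr' h2.1
    · omega
    · exact g.nrA X' Y' hX' hY' h.symm (by omega)
  · subst hYe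
    rcases ha with h1 | h1 | h1 | h1
    · omega
    · subst h1
      have h2 := g.nr X' (K - 1) X1 (K - 1) hX' hY g.hX1 hY (by rw [← h, g.nr1])
        (Or.inr (Or.inl rfl))
      rw [R_last hK] at hr'
      exact hr' h2.1
    · exact g.nrD X' Y' hX' hY' h.symm (by omega)
    · omega

/-- properness of the boards of the type NR -/
theorem NX_pc (g : Gadget K X0 X1 Gp NR D0 D1 A0 A1) {X Y X' Y' : ℕ} (hX : X ≤ K) (hY : Y < K)
    (hX' : X' ≤ K) (hY' : Y' < K) (hr : X ≠ R K X0 X1 Y) (hr' : X' ≠ R K X0 X1 Y')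
    (h : NX K NR X Y = NX K NR X' Y') (ha : Att X Y X' Y') : X = X' ∧ Y = Y' := by
  unfold NX at h
  by_cases h1 : X = K
  · by_cases h2 : X' = K
    · rw [if_pos h1, if_pos h2] at h
      exact ⟨by omega, h⟩
    · rw [if_pos h1, if_neg h2] at h
      subst h1
      exact (NX_one g hY (by omega) hY' hr hr' h ha).elim
  · by_cases h2 : X' = K
    · rw [if_neg h1, if_pos h2] at h
      subst h2
      exact (NX_one g hY' (by omega) hY hr' hr h.symm (Att.symm' ha)).elim
    · rw [if_neg h1, if_neg h2] at h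
      exact g.nr X Y X' Y' (by omega) hY (by omega) hY' h ha

/-- a name is not in its foreign row -/
theorem NX_row (g : Gadget K X0 X1 Gp NR D0 D1 A0 A1) {Y Y' : ℕ} (hY : Y < K) (hY' : Y' < K)
    (hr : R K X0 X1 Y' ≠ R K X0 X1 Y) (h : NX K NR (R K X0 X1 Y') Y = Y') : False := by
  have hK := g.hK
  have hX0 := g.hX0
  have hX1 := g.hX1
  unfold NX at h
  by_cases h0 : Y' = 0
  · subst h0
    rw [R_zero] at h hr
    rw [if_neg (by omega)] at h
    have h2 := g.nr X0 Y X0 0 hX0 hY hX0 hY' (by rw [h, g.nr0]) (Or.inl rfl)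
    rw [h2.2, R_zero] at hr
    exact hr rfl
  · by_cases h1 : Y' = K - 1
    · subst h1
      rw [R_last hK] at h hr
      rw [if_neg (by omega)] at h
      have h2 := g.nr X1 Y X1 (K - 1) hX1 hY hX1 hY' (by rw [h, g.nr1]) (Or.inl rfl)
      rw [h2.2, R_last hK] at hr
      exact hr rfl
    · rw [R_mid h0 h1, if_pos rfl] at h
      subst h
      exact hr rfl

/-- the regular cells -/
structure Reg (_g : Gadget K X0 X1 Gp NR D0 D1 A0 A1) {m : ℕ} (α : ZMod m) (X : ℕ) (β : ZMod m)
    (Y : ℕ) (c : ZMod m) (h : ℕ) : Prop where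
  hX : X ≤ K
  hY : Y ≤ K
  hXK : X = K → α = 0
  hYK : Y = K → β = 0
  nrf : ¬ (α = 0 ∧ β ≠ 0 ∧ X = R K X0 X1 Y)
  ncf : ¬ (β = 0 ∧ α ≠ 0 ∧ Y = R K X0 X1 X)
  hc : (h = K ∧ α = 2 * β ∧ c = 0) ∨ (h < K ∧ c = 2 * β - 4 * α)
  hW : α = 2 * β → h = Gp X Y
  hN : α = 0 → β ≠ 0 → h = NX K NR X Y
  hC : β = 0 → α ≠ 0 → h = Gp (NX K NR Y X) K
  hI : α ≠ 0 → β ≠ 0 → α ≠ 2 * β → h = G NR D0 D1 A0 A1 (fun i => Gp i K) α β X Y

/-- attacking cells -/
def At {m : ℕ} (α : ZMod m) (X : ℕ) (β : ZMod m) (Y : ℕ) (α' : ZMod m) (X' : ℕ) (β' : ZMod m)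
    (Y' : ℕ) : Prop :=
  Att (m * X + α.val) (m * Y + β.val) (m * X' + α'.val) (m * Y' + β'.val)

theorem cast_cell {m : ℕ} [NeZero m] (α : ZMod m) (X : ℕ) :
    ((m * X + α.val : ℕ) : ZMod m) = α := by
  simp

theorem at_cases {m : ℕ} [NeZero m] {α : ZMod m} {X : ℕ} {β : ZMod m} {Y : ℕ} {α' : ZMod m}
    {X' : ℕ} {β' : ZMod m} {Y' : ℕ} (h : At α X β Y α' X' β' Y') :
    (α = α' ∧ X = X') ∨ (β = β' ∧ Y = Y') ∨
    (α + β' = α' + β ∧
      m * X + α.val + (m * Y' + β'.val) = m * X' + α'.val + (m * Y + β.val)) ∨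
    (α + β = α' + β' ∧
      m * X + α.val + (m * Y + β.val) = m * X' + α'.val + (m * Y' + β'.val)) := by
  have va := α.val_lt
  have va' := α'.val_lt
  have vb := β.val_lt
  have vb' := β'.val_lt
  rcases h with h | h | h | h
  · left
    have h1 : α = α' := by
      have := congrArg (fun n : ℕ => (n : ZMod m)) h
      simpa only [cast_cell] using this
    refine ⟨h1, divlem h (by omega) (by omega)⟩
  · right; left
    have h1 : β = β' := by
      have := congrArg (fun n : ℕ => (n : ZMod m)) h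
      simpa only [cast_cell] using this
    refine ⟨h1, divlem h (by omega) (by omega)⟩
  · right; right; left
    refine ⟨?_, h⟩
    have := congrArg (fun n : ℕ => (n : ZMod m)) h
    simpa using this
  · right; right; right
    refine ⟨?_, h⟩
    have := congrArg (fun n : ℕ => (n : ZMod m)) h
    simpa using this

/-- two regular cells -/
theorem reg_reg (g : Gadget K X0 X1 Gp NR D0 D1 A0 A1) {m : ℕ} [NeZero m]
    (hm : Nat.Coprime m 210) {α : ZMod m} {X : ℕ}
    {β : ZMod m} {Y : ℕ} {α' : ZMod m} {X' : ℕ} {β' : ZMod m} {Y' : ℕ} {c : ZMod m} {h : ℕ}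
    (r : Reg g α X β Y c h) (r' : Reg g α' X' β' Y' c h) (ha : At α X β Y α' X' β' Y') :
    α = α' ∧ X = X' ∧ β = β' ∧ Y = Y' := by
  obtain ⟨u2, u3, u5, u7⟩ := units hm
  have key : α = α' ∧ β = β' := by
    rcases r.hc with ⟨h1, h2, h3⟩ | ⟨h1, h2⟩
    · rcases r'.hc with ⟨h1', h2', h3'⟩ | ⟨h1', h2'⟩
      · rcases at_cases ha with ⟨e, -⟩ | ⟨e, -⟩ | ⟨e, -⟩ | ⟨e, -⟩
        · refine ⟨e, sub_eq_zero.1 (u2 _ ?_)⟩
          linear_combination e - h2 + h2'
        · refine ⟨?_, e⟩
          rw [h2, h2', e]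
        · have e1 : β = β' := by
            rw [h2, h2'] at e
            linear_combination e
          exact ⟨by rw [h2, h2', e1], e1⟩
        · have e1 : β = β' := by
            refine sub_eq_zero.1 (u3 _ ?_)
            rw [h2, h2'] at e
            linear_combination e
          exact ⟨by rw [h2, h2', e1], e1⟩
      · exact absurd h1' (by omega)
    · rcases r'.hc with ⟨h1', h2', h3'⟩ | ⟨h1', h2'⟩
      · exact absurd h1' (by omega)
      · have h4 : 2 * β - 4 * α = 2 * β' - 4 * α' := by rw [← h2, ← h2']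
        rcases at_cases ha with ⟨e, -⟩ | ⟨e, -⟩ | ⟨e, -⟩ | ⟨e, -⟩
        · refine ⟨e, sub_eq_zero.1 (u2 _ ?_)⟩
          linear_combination h4 + 4 * e
        · refine ⟨sub_eq_zero.1 (u2 _ (u2 _ ?_)), e⟩
          linear_combination 2 * e - h4
        · have e1 : α = α' := by
            refine sub_eq_zero.1 (u2 _ ?_)
            linear_combination 2 * e * (-1) + 4 * e - h4 - 4 * e
          exact ⟨e1, by linear_combination e1 - e⟩
        · have e1 : α = α' := by
            refine sub_eq_zero.1 (u2 _ (u3 _ ?_))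
            linear_combination 2 * e - h4
          exact ⟨e1, by linear_combination e - e1⟩
  obtain ⟨rfl, rfl⟩ := key
  have hm0 := Nat.pos_of_ne_zero (NeZero.ne m)
  have hAt : Att X Y X' Y' := by
    rcases ha with h1 | h1 | h1 | h1
    · exact Or.inl (divlem h1 (by omega) (by omega))
    · exact Or.inr (Or.inl (divlem h1 (by omega) (by omega)))
    · refine Or.inr (Or.inr (Or.inl ?_))
      refine divlem (m := m) (u := α.val + β.val) (v := α.val + β.val) ?_
        (by have := Nat.pos_of_ne_zero (NeZero.ne m); omega)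
        (by have := Nat.pos_of_ne_zero (NeZero.ne m); omega)
      rw [mul_add, mul_add]
      omega
    · refine Or.inr (Or.inr (Or.inr ?_))
      refine divlem (m := m) (u := α.val + β.val) (v := α.val + β.val) ?_
        (by have := Nat.pos_of_ne_zero (NeZero.ne m); omega)
        (by have := Nat.pos_of_ne_zero (NeZero.ne m); omega)
      rw [mul_add, mul_add]
      omega
  have hfin : X = X' ∧ Y = Y' := by
    by_cases hw : α = 2 * β
    · have h1 := r.hW hw
      have h2 := r'.hW hw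
      have b1 := r.hX
      have b2 := r.hY
      have b3 := r'.hX
      have b4 := r'.hY
      exact g.gp X Y X' Y' (by omega) (by omega) (by omega) (by omega) (by rw [← h1, ← h2]) hAt
    · by_cases ha0 : α = 0
      · have hb0 : β ≠ 0 := by
          rintro rfl
          exact hw (by rw [ha0, mul_zero])
        have b1 := r.hX
        have b3 := r'.hX
        have b2 : Y < K := lt_of_le_of_ne r.hY fun e => hb0 (r.hYK e)
        have b4 : Y' < K := lt_of_le_of_ne r'.hY fun e => hb0 (r'.hYK e)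
        have n1 : X ≠ R K X0 X1 Y := fun e => r.nrf ⟨ha0, hb0, e⟩
        have n2 : X' ≠ R K X0 X1 Y' := fun e => r'.nrf ⟨ha0, hb0, e⟩
        exact NX_pc g b1 b2 b3 b4 n1 n2 (by rw [← r.hN ha0 hb0, ← r'.hN ha0 hb0]) hAt
      · by_cases hb0 : β = 0
        · have b1 := r.hY
          have b3 := r'.hY
          have b2 : X < K := lt_of_le_of_ne r.hX fun e => ha0 (r.hXK e)
          have b4 : X' < K := lt_of_le_of_ne r'.hX fun e => ha0 (r'.hXK e)
          have n1 : Y ≠ R K X0 X1 X := fun e => r.ncf ⟨hb0, ha0, e⟩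
          have n2 : Y' ≠ R K X0 X1 X' := fun e => r'.ncf ⟨hb0, ha0, e⟩
          have e1 : Gp (NX K NR Y X) K = Gp (NX K NR Y' X') K := by
            rw [← r.hC hb0 ha0, ← r'.hC hb0 ha0]
          have e2 := ps_inj g _ _ (NX_lt g b1 b2) (NX_lt g b3 b4) e1
          have := NX_pc g b1 b2 b3 b4 n1 n2 e2 (Att.swap hAt)
          exact ⟨this.2, this.1⟩
        · have b1 : X < K := lt_of_le_of_ne r.hX fun e => ha0 (r.hXK e)
          have b2 : Y < K := lt_of_le_of_ne r.hY fun e => hb0 (r.hYK e)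
          have b3 : X' < K := lt_of_le_of_ne r'.hX fun e => ha0 (r'.hXK e)
          have b4 : Y' < K := lt_of_le_of_ne r'.hY fun e => hb0 (r'.hYK e)
          exact G_pc g α β X Y X' Y' b1 b2 b3 b4
            (by rw [← r.hI ha0 hb0 hw, ← r'.hI ha0 hb0 hw]) hAt
  exact ⟨rfl, hfin.1, rfl, hfin.2⟩

/-- a row-foreign and a regular cell -/
theorem rf_reg (g : Gadget K X0 X1 Gp NR D0 D1 A0 A1) {m : ℕ} [NeZero m]
    (hm : Nat.Coprime m 210) {α : ZMod m} {X : ℕ}
    {β : ZMod m} {Y : ℕ} {β' : ZMod m} {Y' : ℕ} (hb' : β' ≠ 0) (hY' : Y' < K)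
    (r : Reg g α X β Y (-(6 * β')) Y') (ha : At α X β Y 0 (R K X0 X1 Y') β' Y') : False := by
  obtain ⟨u2, u3, u5, u7⟩ := units hm
  have va := α.val_lt
  have vb := β.val_lt
  have vb' := β'.val_lt
  have v0 : (0 : ZMod m).val = 0 := ZMod.val_zero
  have hc : 2 * β - 4 * α = -(6 * β') := by
    rcases r.hc with ⟨h1, h2, h3⟩ | ⟨h1, h2⟩
    · omega
    · exact h2.symm
  rcases at_cases ha with ⟨e, e'⟩ | ⟨e, e'⟩ | ⟨e, e'⟩ | ⟨e, e'⟩
  · have hb0 : β ≠ 0 := by
      rintro rfl
      apply hb'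
      refine u2 _ (u3 _ ?_)
      linear_combination hc + 4 * e
    have h1 := r.hN e hb0
    have hY : Y < K := lt_of_le_of_ne r.hY fun e2 => hb0 (r.hYK e2)
    have hr : X ≠ R K X0 X1 Y := fun e2 => r.nrf ⟨e, hb0, e2⟩
    rw [e'] at h1 hr
    exact NX_row g hY hY' hr h1.symm
  · have hw : α = 2 * β := by
      refine sub_eq_zero.1 (u2 _ (u2 _ ?_))
      linear_combination -hc - 6 * e
    have h1 := r.hW hw
    have h2 := g.gp_last Y' (by omega)
    have hX := r.hX
    have h3 := g.gp X Y K Y' (by omega) (by omega) (by omega) (by omega) (by rw [← h1, h2])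
      (Or.inr (Or.inl e'))
    have h4 := r.hXK h3.1
    apply hb'
    refine u2 _ ?_
    rw [← e, ← hw, h4]
  · have hα : α = 4 * β' := by
      have h1 : β = 5 * β' := by
        refine sub_eq_zero.1 (u2 _ ?_)
        linear_combination -hc - 4 * e
      linear_combination e + h1
    have hβ : β = 5 * β' := by linear_combination hα - e
    have n1 : α ≠ 0 := by
      intro h1
      apply hb'
      refine u2 _ (u2 _ ?_)
      linear_combination h1 - hα
    have n2 : β ≠ 0 := by
      intro h1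
      apply hb'
      refine u5 _ ?_
      linear_combination h1 - hβ
    have n3 : α ≠ 2 * β := by
      intro h1
      apply hb'
      refine u2 _ (u3 _ ?_)
      linear_combination -h1 + hα - 2 * hβ
    have hG := r.hI n1 n2 n3
    have hX : X < K := lt_of_le_of_ne r.hX fun e2 => n1 (r.hXK e2)
    have hY : Y < K := lt_of_le_of_ne r.hY fun e2 => n2 (r.hYK e2)
    unfold G at hG
    rw [if_pos (by rw [hα, hβ]; ring)] at hG
    rw [v0, add_zero] at e'
    by_cases hab : α.val < β.val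
    · rw [if_pos hab] at hG
      have h1 : X + Y' = R K X0 X1 Y' + Y := by
        refine divlem (m := m) (u := α.val + β'.val) (v := β.val) ?_ (by omega) (by omega)
        rw [mul_add, mul_add]
        omega
      have h2 := g.d0_av X Y hX hY
      rw [← hG] at h2
      exact h2 h1
    · rw [if_neg hab] at hG
      have hne : α.val ≠ β.val := by
        intro h1
        have h2 := ZMod.val_injective m h1
        apply hb'
        linear_combination hα - hβ - h2
      have h1 : X + Y' + 1 = R K X0 X1 Y' + Y := by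
        refine divlem (m := m) (u := α.val + β'.val) (v := β.val + m) ?_ (by omega) (by omega)
        rw [mul_add, mul_add, mul_add]
        omega
      have h2 := g.d1_av X Y hX hY
      rw [← hG] at h2
      exact h2 h1
  · have hβ' : β' = -(3 * β) := by
      refine sub_eq_zero.1 (u2 _ ?_)
      linear_combination hc + 4 * e
    have hα : α = -(4 * β) := by linear_combination e + hβ'
    have n2 : β ≠ 0 := by
      intro h1
      apply hb'
      rw [hβ', h1]; ring
    have n1 : α ≠ 0 := by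
      intro h1
      apply n2
      refine u2 _ (u2 _ ?_)
      linear_combination hα - h1
    have n3 : α ≠ 2 * β := by
      intro h1
      apply n2
      refine u2 _ (u3 _ ?_)
      linear_combination hα - h1
    have n4 : ¬ 5 * α = 4 * β := by
      intro h1
      apply n2
      refine u2 _ (u2 _ (u2 _ (u3 _ ?_)))
      linear_combination 5 * hα - h1
    have hG := r.hI n1 n2 n3
    have hX : X < K := lt_of_le_of_ne r.hX fun e2 => n1 (r.hXK e2)
    have hY : Y < K := lt_of_le_of_ne r.hY fun e2 => n2 (r.hYK e2)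
    unfold G at hG
    rw [if_neg n4, if_pos hα] at hG
    rw [v0, add_zero] at e'
    by_cases hab : α.val + β.val < m
    · rw [if_pos hab] at hG
      have h1 : X + Y = R K X0 X1 Y' + Y' := by
        refine divlem (m := m) (u := α.val + β.val) (v := β'.val) ?_ (by omega) (by omega)
        rw [mul_add, mul_add]
        omega
      have h2 := g.a0_av X Y hX hY
      rw [← hG] at h2
      exact h2 h1
    · rw [if_neg hab] at hG
      have h1 : X + Y + 1 = R K X0 X1 Y' + Y' := by
        refine divlem (m := m) (u := α.val + β.val) (v := β'.val + m) ?_ (by omega) (by omega)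
        rw [mul_add, mul_add, mul_add]
        omega
      have h2 := g.a1_av X Y hX hY
      rw [← hG] at h2
      exact h2 h1

/-- a column-foreign and a regular cell -/
theorem cf_reg (g : Gadget K X0 X1 Gp NR D0 D1 A0 A1) {m : ℕ} [NeZero m]
    (hm : Nat.Coprime m 210) {α : ZMod m} {X : ℕ}
    {β : ZMod m} {Y : ℕ} {α' : ZMod m} {X' : ℕ} (ha' : α' ≠ 0) (hX' : X' < K)
    (r : Reg g α X β Y (-(3 * α')) (Gp X' K)) (ha : At α X β Y α' X' 0 (R K X0 X1 X')) :
    False := by
  obtain ⟨u2, u3, u5, u7⟩ := units hm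
  have va := α.val_lt
  have vb := β.val_lt
  have va' := α'.val_lt
  have v0 : (0 : ZMod m).val = 0 := ZMod.val_zero
  have hps := ps_lt g hX'
  have hc : 2 * β - 4 * α = -(3 * α') := by
    rcases r.hc with ⟨h1, h2, h3⟩ | ⟨h1, h2⟩
    · omega
    · exact h2.symm
  rcases at_cases ha with ⟨e, e'⟩ | ⟨e, e'⟩ | ⟨e, e'⟩ | ⟨e, e'⟩
  · have hw : α = 2 * β := by linear_combination -hc - 3 * e
    have h1 := r.hW hw
    have hY := r.hY
    have h3 := g.gp X Y X' K (by omega) (by omega) (by omega) (by omega) h1.symm (Or.inl e')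
    have h4 := r.hYK h3.2
    apply ha'
    rw [← e, hw, h4, mul_zero]
  · have ha0 : α ≠ 0 := by
      intro h1
      apply ha'
      refine u3 _ ?_
      linear_combination hc - 2 * e + 4 * h1
    have h1 := r.hC e ha0
    have hX : X < K := lt_of_le_of_ne r.hX fun e2 => ha0 (r.hXK e2)
    have hr : Y ≠ R K X0 X1 X := fun e2 => r.ncf ⟨e, ha0, e2⟩
    have h2 := ps_inj g _ _ (NX_lt g r.hY hX) hX' h1.symm
    rw [e'] at h2 hr
    exact NX_row g hX hX' hr h2
  · have h1 : α' = -(2 * β) := by linear_combination -hc - 4 * e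
    have hα : α = -β := by linear_combination e + h1
    have n2 : β ≠ 0 := by
      intro h2
      apply ha'
      rw [h1, h2]; ring
    have n1 : α ≠ 0 := by
      intro h2
      apply n2
      linear_combination hα - h2
    have n3 : α ≠ 2 * β := by
      intro h2
      apply n2
      refine u3 _ ?_
      linear_combination hα - h2
    have n4 : ¬ 5 * α = 4 * β := by
      intro h2
      apply n2
      refine u3 _ (u3 _ ?_)
      linear_combination 5 * hα - h2
    have n5 : ¬ α = -(4 * β) := by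
      intro h2
      apply n2
      refine u3 _ ?_
      linear_combination h2 - hα
    have hG := r.hI n1 n2 n3
    have hX : X < K := lt_of_le_of_ne r.hX fun e2 => n1 (r.hXK e2)
    have hY : Y < K := lt_of_le_of_ne r.hY fun e2 => n2 (r.hYK e2)
    unfold G at hG
    rw [if_neg n4, if_neg n5, if_pos hα] at hG
    rw [v0, add_zero] at e'
    have hne : α.val ≠ β.val := by
      intro h3
      have h2 := ZMod.val_injective m h3
      apply n2
      refine u2 _ ?_
      linear_combination hα - h2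
    by_cases hab : β.val < α.val
    · rw [if_pos hab] at hG
      have h5 : X' = D0 Y X := ps_inj g _ _ hX' (g.d0_lt Y X hY hX) hG
      have h3 : X + R K X0 X1 X' = X' + Y := by
        refine divlem (m := m) (u := α.val) (v := α'.val + β.val) ?_ (by omega) (by omega)
        rw [mul_add, mul_add]
        omega
      have h2 := g.d0_av Y X hY hX
      rw [← h5] at h2
      omega
    · rw [if_neg hab] at hG
      have h5 : X' = D1 Y X := ps_inj g _ _ hX' (g.d1_lt Y X hY hX) hG
      have h3 : X + R K X0 X1 X' = X' + Y + 1 := by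
        refine divlem (m := m) (u := α.val + m) (v := α'.val + β.val) ?_ (by omega) (by omega)
        rw [mul_add, mul_add, mul_add]
        omega
      have h2 := g.d1_av Y X hY hX
      rw [← h5] at h2
      omega
  · have hα : α = 5 * β := by linear_combination -hc - 3 * e
    have h1 : α' = 6 * β := by linear_combination hα - e
    have n2 : β ≠ 0 := by
      intro h2
      apply ha'
      rw [h1, h2]; ring
    have n1 : α ≠ 0 := by
      intro h2
      apply n2
      refine u5 _ ?_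
      linear_combination h2 - hα
    have n3 : α ≠ 2 * β := by
      intro h2
      apply n2
      refine u3 _ ?_
      linear_combination h2 - hα
    have n4 : ¬ 5 * α = 4 * β := by
      intro h2
      apply n2
      refine u3 _ (u7 _ ?_)
      linear_combination h2 - 5 * hα
    have n5 : ¬ α = -(4 * β) := by
      intro h2
      apply n2
      refine u3 _ (u3 _ ?_)
      linear_combination h2 - hα
    have n6 : ¬ α = -β := by
      intro h2
      apply n2
      refine u2 _ (u3 _ ?_)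
      linear_combination h2 - hα
    have hG := r.hI n1 n2 n3
    have hX : X < K := lt_of_le_of_ne r.hX fun e2 => n1 (r.hXK e2)
    have hY : Y < K := lt_of_le_of_ne r.hY fun e2 => n2 (r.hYK e2)
    unfold G at hG
    rw [if_neg n4, if_neg n5, if_neg n6, if_pos hα] at hG
    rw [v0, add_zero] at e'
    by_cases hab : α.val + β.val < m
    · rw [if_pos hab] at hG
      have h5 : X' = A0 Y X := ps_inj g _ _ hX' (g.a0_lt Y X hY hX) hG
      have h3 : X + Y = X' + R K X0 X1 X' := by
        refine divlem (m := m) (u := α.val + β.val) (v := α'.val) ?_ (by omega) (by omega)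
        rw [mul_add, mul_add]
        omega
      have h2 := g.a0_av Y X hY hX
      rw [← h5] at h2
      omega
    · rw [if_neg hab] at hG
      have h5 : X' = A1 Y X := ps_inj g _ _ hX' (g.a1_lt Y X hY hX) hG
      have h3 : X + Y + 1 = X' + R K X0 X1 X' := by
        refine divlem (m := m) (u := α.val + β.val) (v := α'.val + m) ?_ (by omega) (by omega)
        rw [mul_add, mul_add, mul_add]
        omega
      have h2 := g.a1_av Y X hY hX
      rw [← h5] at h2
      omega


theorem at_symm {m : ℕ} {α : ZMod m} {X : ℕ} {β : ZMod m} {Y : ℕ} {α' : ZMod m}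
    {X' : ℕ} {β' : ZMod m} {Y' : ℕ} (h : At α X β Y α' X' β' Y') : At α' X' β' Y' α X β Y :=
  Att.symm' h

/-- the three kinds of cells -/
inductive Ty (g : Gadget K X0 X1 Gp NR D0 D1 A0 A1) {m : ℕ} (α : ZMod m) (X : ℕ) (β : ZMod m)
    (Y : ℕ) (c : ZMod m) (h : ℕ) : Prop
  | rf : α = 0 → β ≠ 0 → Y < K → X = R K X0 X1 Y → c = -(6 * β) → h = Y → Ty g α X β Y c h
  | cf : β = 0 → α ≠ 0 → X < K → Y = R K X0 X1 X → c = -(3 * α) → h = Gp X K → Ty g α X β Y c h
  | rg : Reg g α X β Y c h → Ty g α X β Y c h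

/-- row-foreign and column-foreign cells -/
theorem rf_cf {m : ℕ} [NeZero m] (hm : Nat.Coprime m 210) {α : ZMod m} {X : ℕ}
    {β : ZMod m} {Y : ℕ} {α' : ZMod m} {X' : ℕ} {β' : ZMod m} {Y' : ℕ} {c : ZMod m}
    (h1 : α = 0) (h2 : β ≠ 0) (h3 : c = -(6 * β)) (h1' : β' = 0) (h2' : α' ≠ 0)
    (h3' : c = -(3 * α')) (ha : At α X β Y α' X' β' Y') : False := by
  obtain ⟨u2, u3, u5, u7⟩ := units hm
  have h4 : α' = 2 * β := by
    refine sub_eq_zero.1 (u3 _ ?_)
    linear_combination h3' - h3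
  rcases at_cases ha with ⟨e, -⟩ | ⟨e, -⟩ | ⟨e, -⟩ | ⟨e, -⟩
  · exact h2' (by rw [← e, h1])
  · exact h2 (by rw [e, h1'])
  · apply h2
    refine u3 _ ?_
    linear_combination h1 + h1' - e - h4
  · apply h2
    linear_combination h1 - h1' - e - h4

theorem ty_ty (g : Gadget K X0 X1 Gp NR D0 D1 A0 A1) {m : ℕ} [NeZero m]
    (hm : Nat.Coprime m 210) {α : ZMod m} {X : ℕ}
    {β : ZMod m} {Y : ℕ} {α' : ZMod m} {X' : ℕ} {β' : ZMod m} {Y' : ℕ} {c : ZMod m} {h : ℕ}
    (t : Ty g α X β Y c h) (t' : Ty g α' X' β' Y' c h) (ha : At α X β Y α' X' β' Y') :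
    α = α' ∧ X = X' ∧ β = β' ∧ Y = Y' := by
  obtain ⟨u2, u3, u5, u7⟩ := units hm
  rcases t with ⟨h1, h2, h3, h4, h5, h6⟩ | ⟨h1, h2, h3, h4, h5, h6⟩ | r
  · rcases t' with ⟨h1', h2', h3', h4', h5', h6'⟩ | ⟨h1', h2', h3', h4', h5', h6'⟩ | r'
    · have e1 : β = β' := by
        refine sub_eq_zero.1 (u2 _ (u3 _ ?_))
        linear_combination h5 - h5'
      have e2 : Y = Y' := by omega
      subst e2
      exact ⟨by rw [h1, h1'], by rw [h4, h4'], e1, rfl⟩
    · exact (rf_cf hm h1 h2 h5 h1' h2' h5' ha).elim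
    · subst h1 h4 h5 h6
      exact (rf_reg g hm h2 h3 r' (at_symm ha)).elim
  · rcases t' with ⟨h1', h2', h3', h4', h5', h6'⟩ | ⟨h1', h2', h3', h4', h5', h6'⟩ | r'
    · exact (rf_cf hm h1' h2' h5' h1 h2 h5 (at_symm ha)).elim
    · have e1 : α = α' := by
        refine sub_eq_zero.1 (u3 _ ?_)
        linear_combination h5 - h5'
      have e2 : X = X' := ps_inj g _ _ h3 h3' (by rw [← h6, ← h6'])
      subst e2
      exact ⟨e1, rfl, by rw [h1, h1'], by rw [h4, h4']⟩
    · subst h1 h4 h5 h6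
      exact (cf_reg g hm h2 h3 r' (at_symm ha)).elim
  · rcases t' with ⟨h1', h2', h3', h4', h5', h6'⟩ | ⟨h1', h2', h3', h4', h5', h6'⟩ | r'
    · subst h1' h4' h5' h6'
      exact (rf_reg g hm h2' h3' r ha).elim
    · subst h1' h4' h5' h6'
      exact (cf_reg g hm h2' h3' r ha).elim
    · exact reg_reg g hm r r' ha

/-- every cell has a colour -/
theorem exists_ty (g : Gadget K X0 X1 Gp NR D0 D1 A0 A1) {m : ℕ} (hm : Nat.Coprime m 210)
    (α : ZMod m) (X : ℕ)
    (β : ZMod m) (Y : ℕ) (hX : X ≤ K) (hY : Y ≤ K) (hXK : X = K → α = 0) (hYK : Y = K → β = 0) :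
    ∃ p : ZMod m × ℕ, Ty g α X β Y p.1 p.2 ∧ (p.2 < K ∨ (p.2 = K ∧ p.1 = 0)) := by
  obtain ⟨u2, u3, u5, u7⟩ := units hm
  by_cases h1 : α = 0 ∧ β ≠ 0 ∧ X = R K X0 X1 Y
  · have hY' : Y < K := lt_of_le_of_ne hY fun e => h1.2.1 (hYK e)
    exact ⟨(-(6 * β), Y), Ty.rf h1.1 h1.2.1 hY' h1.2.2 rfl rfl, Or.inl hY'⟩
  by_cases h2 : β = 0 ∧ α ≠ 0 ∧ Y = R K X0 X1 X
  · have hX' : X < K := lt_of_le_of_ne hX fun e => h2.2.1 (hXK e)
    exact ⟨(-(3 * α), Gp X K), Ty.cf h2.1 h2.2.1 hX' h2.2.2 rfl rfl, Or.inl (ps_lt g hX')⟩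
  by_cases hw : α = 2 * β
  · have n1 : α = 0 → β ≠ 0 → False := fun e1 e2 => e2 (u2 _ (by rw [← hw, e1]))
    have n2 : β = 0 → α ≠ 0 → False := fun e1 e2 => e2 (by rw [hw, e1, mul_zero])
    by_cases hK : Gp X Y = K
    · refine ⟨(0, K), Ty.rg ⟨hX, hY, hXK, hYK, h1, h2, Or.inl ⟨rfl, hw, rfl⟩, fun _ => hK.symm,
        fun e1 e2 => (n1 e1 e2).elim, fun e1 e2 => (n2 e1 e2).elim, fun _ _ e => (e hw).elim⟩,
        Or.inr ⟨rfl, rfl⟩⟩
    · have hlt : Gp X Y < K := lt_of_le_of_ne (g.gp_le X Y hX hY) hK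
      exact ⟨(2 * β - 4 * α, Gp X Y), Ty.rg ⟨hX, hY, hXK, hYK, h1, h2, Or.inr ⟨hlt, rfl⟩,
        fun _ => rfl, fun e1 e2 => (n1 e1 e2).elim, fun e1 e2 => (n2 e1 e2).elim,
        fun _ _ e => (e hw).elim⟩, Or.inl hlt⟩
  by_cases ha0 : α = 0
  · have hb0 : β ≠ 0 := by
      rintro rfl
      exact hw (by rw [ha0, mul_zero])
    have hY' : Y < K := lt_of_le_of_ne hY fun e => hb0 (hYK e)
    have hlt := NX_lt g hX hY'
    exact ⟨(2 * β - 4 * α, NX K NR X Y), Ty.rg ⟨hX, hY, hXK, hYK, h1, h2, Or.inr ⟨hlt, rfl⟩,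
      fun e => (hw e).elim, fun _ _ => rfl, fun e => (hb0 e).elim,
      fun e => (e ha0).elim⟩, Or.inl hlt⟩
  by_cases hb0 : β = 0
  · have hX' : X < K := lt_of_le_of_ne hX fun e => ha0 (hXK e)
    have hlt := ps_lt g (NX_lt g hY hX')
    exact ⟨(2 * β - 4 * α, Gp (NX K NR Y X) K), Ty.rg ⟨hX, hY, hXK, hYK, h1, h2,
      Or.inr ⟨hlt, rfl⟩,
      fun e => (hw e).elim, fun e => (ha0 e).elim, fun _ _ => rfl,
      fun _ e => (e hb0).elim⟩, Or.inl hlt⟩
  · have hX' : X < K := lt_of_le_of_ne hX fun e => ha0 (hXK e)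
    have hY' : Y < K := lt_of_le_of_ne hY fun e => hb0 (hYK e)
    have hlt := G_lt g α β hX' hY'
    exact ⟨(2 * β - 4 * α, G NR D0 D1 A0 A1 (fun i => Gp i K) α β X Y),
      Ty.rg ⟨hX, hY, hXK, hYK, h1, h2,
      Or.inr ⟨hlt, rfl⟩,
      fun e => (hw e).elim, fun e => (ha0 e).elim, fun e => (hb0 e).elim,
      fun _ _ _ => rfl⟩, Or.inl hlt⟩

theorem insertion' (g : Gadget K X0 X1 Gp NR D0 D1 A0 A1) (m : ℕ) (hm : Nat.Coprime m 210) :
    SQ (K * m + 1) := by
  have hm0 : m ≠ 0 := by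
    rintro rfl
    revert hm
    decide
  haveI : NeZero m := ⟨hm0⟩
  have hmp : 0 < m := Nat.pos_of_ne_zero hm0
  have hq : ∀ x, x < K * m + 1 → x / m ≤ K := by
    intro x hx
    rw [Nat.div_le_iff_le_mul_add_pred hmp]
    have : m * K = K * m := mul_comm _ _
    omega
  have hqK : ∀ x, x < K * m + 1 → x / m = K → (x : ZMod m) = 0 := by
    intro x hx h
    have h1 := Nat.div_mul_le_self x m
    rw [h] at h1
    have h2 : x = K * m := by omega
    rw [h2]
    simp
  have hex : ∀ x y : ℕ, ∃ p : ZMod m × ℕ, x < K * m + 1 → y < K * m + 1 →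
      Ty g (x : ZMod m) (x / m) (y : ZMod m) (y / m) p.1 p.2 ∧ (p.2 < K ∨ (p.2 = K ∧ p.1 = 0)) := by
    intro x y
    by_cases hx : x < K * m + 1
    · by_cases hy : y < K * m + 1
      · obtain ⟨p, hp⟩ := exists_ty g hm (x : ZMod m) (x / m) (y : ZMod m) (y / m) (hq x hx)
          (hq y hy) (hqK x hx) (hqK y hy)
        exact ⟨p, fun _ _ => hp⟩
      · exact ⟨(0, 0), fun _ h => (hy h).elim⟩
    · exact ⟨(0, 0), fun h => (hx h).elim⟩
  choose F hF using hex
  have hdec : ∀ x : ℕ, m * (x / m) + (x : ZMod m).val = x := by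
    intro x
    rw [ZMod.val_natCast]
    exact Nat.div_add_mod x m
  refine ⟨fun x y => m * (F x y).2 + (F x y).1.val, ?_, ?_⟩
  · intro x y hx hy
    obtain ⟨-, h1⟩ := hF x y hx hy
    have h3 := (F x y).1.val_lt
    rcases h1 with h1 | ⟨h1, h2⟩
    · have h4 : m * ((F x y).2 + 1) ≤ m * K := Nat.mul_le_mul_left m h1
      rw [mul_add, mul_one] at h4
      have h5 : m * K = K * m := mul_comm _ _
      show m * (F x y).2 + (F x y).1.val < K * m + 1
      omega
    · show m * (F x y).2 + (F x y).1.val < K * m + 1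
      rw [h1, h2, ZMod.val_zero, mul_comm]
      omega
  · intro x y x' y' hx hy hx' hy' h ha
    obtain ⟨t, -⟩ := hF x y hx hy
    obtain ⟨t', -⟩ := hF x' y' hx' hy'
    have v1 := (F x y).1.val_lt
    have v2 := (F x' y').1.val_lt
    have h' : m * (F x y).2 + (F x y).1.val = m * (F x' y').2 + (F x' y').1.val := h
    have e1 : (F x y).2 = (F x' y').2 := divlem h' (by omega) (by omega)
    have e2 : (F x y).1 = (F x' y').1 := by
      apply ZMod.val_injective m
      rw [e1] at h'
      omega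
    rw [← e1, ← e2] at t'
    have hAt : At (x : ZMod m) (x / m) (y : ZMod m) (y / m) (x' : ZMod m) (x' / m)
        (y' : ZMod m) (y' / m) := by
      unfold At
      rw [hdec, hdec, hdec, hdec]
      exact ha
    obtain ⟨q1, q2, q3, q4⟩ := ty_ty g hm t t' hAt
    constructor
    · rw [← hdec x, ← hdec x', q1, q2]
    · rw [← hdec y, ← hdec y', q3, q4]

end

end J_helper521


theorem insertion (K X0 X1 : ℕ) (Gp NR D0 D1 A0 A1 : ℕ → ℕ → ℕ)
    (g : Gadget K X0 X1 Gp NR D0 D1 A0 A1) (m : ℕ) (hm : Nat.Coprime m 210) :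
    SQ (K * m + 1) :=
  J_helper521.insertion' g m hm

end Pool.Agent.T501Q.J5
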